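import Pool.Agent.H67.HM.Stm

open Polynomial MeasureTheory Filter Topology

namespace HM

/-- Laurent polynomials -/
abbrev RR : Type := AddMonoidAlgebra ℂ ℤ

/-- polynomials as Laurent polynomials -/
noncomputable def tl : ℂ[X] →+* RR := Polynomial.toLaurent

/-- the monomial `T^k` -/
noncomputable def TT (k : ℤ) : RR := AddMonoidAlgebra.single k 1

/-- the `ℓ^r` norm of the coefficients -/
noncomputable def Nn {G : Type} [AddCommGroup G] (r : ℝ) (x : AddMonoidAlgebra ℂ G) : ℝ :=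
  (∑ k ∈ x.coeff.support, ‖x.coeff k‖ ^ r) ^ (1 / r)

/-- the star operation `T ↦ T⁻¹`, conjugate coefficients -/
noncomputable def st {G : Type} [AddCommGroup G] (x : AddMonoidAlgebra ℂ G) :
    AddMonoidAlgebra ℂ G :=
  ∑ k ∈ x.coeff.support, AddMonoidAlgebra.single (-k) ((starRingEnd ℂ) (x.coeff k))

/-- substitution along a homomorphism of the exponent groups -/
noncomputable def sb {G H : Type} [AddCommGroup G] [AddCommGroup H] (h : G →+ H) :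
    AddMonoidAlgebra ℂ G →+* AddMonoidAlgebra ℂ H :=
  AddMonoidAlgebra.mapDomainRingHom ℂ h

/-- the substitution `T ↦ T_a` (variable number `a`) -/
noncomputable def em {G : Type} [AddCommGroup G] {κ : Type} [DecidableEq κ] (a : κ) :
    AddMonoidAlgebra ℂ G →+* AddMonoidAlgebra ℂ (κ → G) :=
  sb (AddMonoidHom.single (fun _ : κ => G) a)

/-- the substitution `T ↦ T^t` -/
noncomputable def dl (t : ℤ) : RR →+* RR := sb (AddMonoidHom.mulLeft t)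

/-- characters of the torus are bounded by `s` on `x` -/
def Su {G : Type} [AddCommGroup G] (x : AddMonoidAlgebra ℂ G) (s : ℝ) : Prop :=
  ∀ χ : AddMonoidAlgebra ℂ G →+* ℂ,
    (∀ g c, χ (AddMonoidAlgebra.single g c) = c * χ (AddMonoidAlgebra.single g 1)) →
    (∀ g, ‖χ (AddMonoidAlgebra.single g 1)‖ = 1) → ‖χ x‖ ≤ s

/-- the approximate structure for `p > 2`: `b D_i ≈ D_(i-1)` -/
structure Stc (p : ℝ) (j₀ : ℕ) (η U ρ : ℝ) (W T₀ : ℕ) (b : ℂ[X]) (D : ℕ → RR) : Prop where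
  D0 : D 0 = 1
  low : ∀ k < T₀, b.coeff k = 0
  nq : ∀ x : RR, (∀ k ∈ x.coeff.support, |k| ≤ W) →
    Nn (p / (p - 1)) (x * tl b) ≤ Nn (p / (p - 1)) x
  np : ∀ x : RR, (∀ k ∈ x.coeff.support, |k| ≤ W) → Nn p (x * D 1) ≤ Nn p x
  small : ∀ i, 2 ≤ i → i ≤ j₀ → Nn p (D i) ≤ η
  act : ∀ i ≤ j₀, ∀ J : ℕ, ∑ j ∈ Finset.range J,
    U ^ j * Nn p (tl b ^ j * D i - if j ≤ i then D (i - j) else 0) ≤ ρ
  sup : ∀ z : ℂ, ‖z‖ = 1 → U * ‖b.eval z‖ ≤ 1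

/-- the properties of the pair `w = μ⁻¹ v`, `w' = μ v*` -/
structure Pr (p κ : ℝ) (J : ℕ) (w : ℂ[X]) (w' : RR) (M s : ℝ) : Prop where
  nonnegM : 0 ≤ M
  nonnegs : 0 ≤ s
  w0 : w.coeff 0 = 0
  w0' : ∀ k, 0 ≤ k → w'.coeff k = 0
  nq : Nn (p / (p - 1)) (tl w) ≤ 1
  np : Nn p w' ≤ 1
  inv : Nn p (tl w * w' - 1) ≤ κ
  pow1 : ∀ n : ℕ, 1 ≤ n → n ≤ J → Nn p (tl w ^ n) ≤ κ
  pow2 : ∀ n : ℕ, 2 ≤ n → n ≤ J → Nn p (tl w ^ n * w') ≤ κ
  nM : Nn 2 w' ≤ M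
  ns : Su (tl w) s
  Ms : ∀ i ≤ J, M ^ i * s ^ (i + 1) ≤ κ

/-- the lowering operator on functions on subsets -/
noncomputable def dlt {N : ℕ} (x : Finset (Fin N) → ℂ) (S : Finset (Fin N)) : ℂ :=
  ∑ l ∈ Sᶜ, x (insert l S)

/-- the element `∑_S x(S) ∏_(l∈S) w'_l` -/
noncomputable def phi {N : ℕ} (w' : RR) (x : Finset (Fin N) → ℂ) :
    AddMonoidAlgebra ℂ (Fin N → ℤ) :=
  ∑ S : Finset (Fin N), x S • ∏ l ∈ S, em l w'

/-- `u(1/T)` for a polynomial `u` -/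
noncomputable def rv (u : ℂ[X]) : RR := dl (-1) (tl u)

end HM
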