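import Mathlib

open Polynomial MeasureTheory Filter Topology

namespace HM

/-- power sums of a sequence are bounded by `B` -/
def Bd (r : ℝ) (f : ℕ → ℂ) (B : ℝ) : Prop := ∀ n : ℕ, ∑ k ∈ Finset.range n, ‖f k‖ ^ r ≤ B

/-- correlation of a polynomial (coefficient sequence `A`) with a sequence -/
def cor (A : ℂ[X]) (f : ℕ → ℂ) (k : ℕ) : ℂ := ∑ j ∈ A.support, A.coeff j * f (j + k)

/-- the abstract frame: translations, exponentials, block embeddings of `ℓ^p`, block averages -/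
structure Sys (p : ENNReal) [Fact (1 ≤ p)] (X : Type) [NormedAddCommGroup X]
    [NormedSpace ℂ X] where
  T : ℝ → X →L[ℂ] X
  T_le : ∀ r, 0 ≤ r → ∀ f, ‖T r f‖ ≤ ‖f‖
  T_zero : ∀ f, T 0 f = f
  T_add : ∀ r s, 0 ≤ r → 0 ≤ s → ∀ f, T (r + s) f = T r (T s f)
  e : ℂ → X
  T_e : ∀ (r : ℝ) (s : ℂ), 0 ≤ r → 0 < s.re → T r (e s) = Complex.exp (-(r * s)) • e s
  J : ℝ → (lp (fun _ : ℕ => ℂ) p) →L[ℂ] X
  J_le : ∀ δ, 0 < δ → ∀ b, ‖J δ b‖ ≤ ‖b‖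
  T_J : ∀ δ, 0 < δ → ∀ b b' : lp (fun _ : ℕ => ℂ) p, (∀ k, b' k = b (k + 1)) →
    T δ (J δ b) = J δ b'
  w : ℝ → X →L[ℂ] ℂ
  w_sum : ∀ δ, 0 < δ → ∀ (f : X) (n : ℕ),
    ∑ k ∈ Finset.range n, ‖w δ (T (k * δ) f)‖ ^ p.toReal ≤ ‖f‖ ^ p.toReal
  J_geo : ∀ δ : ℝ, 0 < δ → ∀ l : ℂ, l ≠ 0 → ‖l‖ < 1 → ∀ b : lp (fun _ : ℕ => ℂ) p,
    (∀ k, b k = l ^ k) → J δ b ∈ closure
      (Submodule.span ℂ {x : X | ∃ s : ℂ, 0 < s.re ∧ Complex.exp (-(δ * s)) = l ∧ x = e s} : Set X)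
  Sm : Set X
  Sm_est : ∀ f ∈ Sm, ∃ C : ℝ, ∀ δ, 0 < δ → δ ≤ 1 → ∀ b : lp (fun _ : ℕ => ℂ) p,
    (∀ k : ℕ, b k = w δ (T (k * δ) f)) → ‖f - J δ b‖ ≤ C * δ

/-- Lebesgue measure on `[0,1]` -/
noncomputable def mu : Measure ℝ := volume.restrict (Set.Icc (0 : ℝ) 1)

/-- `x ↦ (1/x) ∫₀ˣ f` -/
noncomputable def hardyFun (f : ℝ → ℂ) (x : ℝ) : ℂ := (x : ℂ)⁻¹ * ∫ t in (0 : ℝ)..x, f t

/-- the space `L^p[0,1]` -/
abbrev LpI (p : ENNReal) : Type := Lp ℂ p mu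

/-- closed subspaces are Hardy invariant if they contain `Hf` for all their elements `f` -/
def HardyInvariant (p : ENNReal) [Fact (1 ≤ p)] (M : Submodule ℂ (LpI p)) : Prop :=
  ∀ f ∈ M, ∃ g ∈ M, (g : ℝ → ℂ) =ᵐ[mu] hardyFun f

/-- the span of the monomials `x^s`, `s ∈ S` -/
noncomputable def monoSpan (p : ENNReal) [Fact (1 ≤ p)] (S : Finset ℂ) :
    Submodule ℂ (LpI p) :=
  Submodule.span ℂ {g : LpI p | ∃ s ∈ S, (g : ℝ → ℂ) =ᵐ[mu] fun x : ℝ => (x : ℂ) ^ s}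

/-- limits of finite monomial spaces -/
def IsMonomialSpace (p : ENNReal) [Fact (1 ≤ p)] (M : Submodule ℂ (LpI p)) : Prop :=
  ∃ S : ℕ → Finset ℂ, (∀ n, ∀ s ∈ S n, -(1 / p.toReal) < s.re) ∧
    ∀ f : LpI p, f ∈ M ↔
      Tendsto (fun n => Metric.infDist f (monoSpan p (S n) : Set (LpI p))) atTop (𝓝 0)

/-- dilations -/
noncomputable def tfun (p : ENNReal) (r : ℝ) (f : ℝ → ℂ) (x : ℝ) : ℂ :=
  (Real.exp (-(r / p.toReal)) : ℂ) * f (Real.exp (-r) * x)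

/-- block function -/
noncomputable def jfun (p : ENNReal) (δ : ℝ) (b : ℕ → ℂ) (x : ℝ) : ℂ :=
  (((δ * x) ^ (-(1 / p.toReal)) : ℝ) : ℂ) * b ⌊-Real.log x / δ⌋₊

/-- block average over the first block -/
noncomputable def wfun (p : ENNReal) (δ : ℝ) (f : ℝ → ℂ) : ℂ :=
  ∫ x in Set.Ioc (Real.exp (-δ)) 1, (((δ * x) ^ (-(1 - 1 / p.toReal)) : ℝ) : ℂ) * f x

end HM
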