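import Pool.Agent.H67.HM.Stm

open Polynomial MeasureTheory Filter Topology

namespace HM

namespace RSYS_aux

lemma ae_pos : ∀ᵐ x ∂mu, 0 < x ∧ x ≤ 1 := by
  unfold mu
  rw [ae_restrict_iff' measurableSet_Icc]
  have h0 : ∀ᵐ x : ℝ, x ≠ 0 := by
    simp [ae_iff]
  filter_upwards [h0] with x hx h
  exact ⟨lt_of_le_of_ne h.1 (Ne.symm hx), h.2⟩

lemma wfun_congr (p : ENNReal) (δ : ℝ) (hδ : 0 < δ) (f g : ℝ → ℂ) (h : f =ᵐ[mu] g) :
    wfun p δ f = wfun p δ g := by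
  unfold wfun
  apply integral_congr_ae
  have hsub : Set.Ioc (Real.exp (-δ)) 1 ⊆ Set.Icc (0 : ℝ) 1 := by
    intro x hx
    exact ⟨(lt_trans (Real.exp_pos _) hx.1).le, hx.2⟩
  have h' : f =ᵐ[volume.restrict (Set.Ioc (Real.exp (-δ)) 1)] g := by
    unfold mu at h
    exact ae_restrict_of_ae_restrict_of_subset hsub h
  filter_upwards [h'] with x hx
  simp only [hx]

lemma tfun_zero (p : ENNReal) (f : ℝ → ℂ) : tfun p 0 f = f := by
  funext x; simp [tfun]

lemma tfun_add (p : ENNReal) (r s : ℝ) (f : ℝ → ℂ) : tfun p (r + s) f = tfun p r (tfun p s f) := by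
  funext x
  simp only [tfun]
  have h1 : Real.exp (-(r + s)) * x = Real.exp (-s) * (Real.exp (-r) * x) := by
    rw [← mul_assoc, ← Real.exp_add]; congr 2; ring
  have h2 : (Real.exp (-((r + s) / p.toReal)) : ℂ) =
      (Real.exp (-(r / p.toReal)) : ℂ) * (Real.exp (-(s / p.toReal)) : ℂ) := by
    rw [← Complex.ofReal_mul, ← Real.exp_add]; congr 2; ring
  rw [h1, h2]; ring

lemma cpow_shift (p : ENNReal) (r : ℝ) (s : ℂ) (x : ℝ) (hx : 0 < x) :
    tfun p r (fun x : ℝ => (x : ℂ) ^ (s - 1 / (p.toReal : ℂ))) x =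
      Complex.exp (-(r * s)) * (x : ℂ) ^ (s - 1 / (p.toReal : ℂ)) := by
  simp only [tfun]
  rw [Complex.ofReal_mul, Complex.mul_cpow_ofReal_nonneg (Real.exp_pos _).le hx.le, ← mul_assoc]
  congr 1
  have hne : ((Real.exp (-r) : ℝ) : ℂ) ≠ 0 := by
    exact_mod_cast (Real.exp_pos _).ne'
  rw [Complex.cpow_def_of_ne_zero hne, ← Complex.ofReal_log (Real.exp_pos _).le, Real.log_exp,
    Complex.ofReal_exp, ← Complex.exp_add]
  congr 1
  push_cast
  ring

lemma jfun_shift (p : ENNReal) (δ : ℝ) (hδ : 0 < δ) (b b' : ℕ → ℂ) (h : ∀ k, b' k = b (k + 1))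
    (x : ℝ) (hx : 0 < x) (hx1 : x ≤ 1) :
    tfun p δ (jfun p δ b) x = jfun p δ b' x := by
  simp only [tfun, jfun]
  have hlog : Real.log (Real.exp (-δ) * x) = -δ + Real.log x := by
    rw [Real.log_mul (Real.exp_pos _).ne' hx.ne', Real.log_exp]
  have hfl : ⌊-Real.log (Real.exp (-δ) * x) / δ⌋₊ = ⌊-Real.log x / δ⌋₊ + 1 := by
    have h0 : 0 ≤ -Real.log x / δ := div_nonneg (by linarith [Real.log_nonpos hx.le hx1]) hδ.le
    rw [← Nat.floor_add_one h0]
    congr 1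
    rw [hlog]
    field_simp
    ring
  rw [hfl, h, ← mul_assoc]
  congr 1
  rw [← Complex.ofReal_mul]
  congr 1
  have h1 : δ * (Real.exp (-δ) * x) = Real.exp (-δ) * (δ * x) := by ring
  rw [h1, Real.mul_rpow (Real.exp_pos _).le (mul_pos hδ hx).le, ← mul_assoc, ← Real.exp_mul,
    ← Real.exp_add]
  have h2 : -(δ / p.toReal) + -δ * -(1 / p.toReal) = 0 := by ring
  rw [h2, Real.exp_zero, one_mul]

lemma norm_pow (p : ENNReal) [Fact (1 ≤ p)] (hp : p < ⊤) (hp1 : 1 < p) (f : LpI p) :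
    Integrable (fun x => ‖(f : ℝ → ℂ) x‖ ^ p.toReal) mu ∧
    ∫ x in Set.Ioc (0 : ℝ) 1, ‖(f : ℝ → ℂ) x‖ ^ p.toReal = ‖f‖ ^ p.toReal := by
  have hm : MemLp (f : ℝ → ℂ) p mu := Lp.memLp f
  have hp0 : p ≠ 0 := (lt_trans zero_lt_one hp1).ne'
  have hi : Integrable (fun x => ‖(f : ℝ → ℂ) x‖ ^ p.toReal) mu := hm.integrable_norm_rpow hp0 hp.ne
  refine ⟨hi, ?_⟩
  have h1 : ∫ x in Set.Ioc (0 : ℝ) 1, ‖(f : ℝ → ℂ) x‖ ^ p.toReal =
      ∫ x, ‖(f : ℝ → ℂ) x‖ ^ p.toReal ∂mu := by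
    unfold mu
    rw [← integral_Icc_eq_integral_Ioc]
  rw [h1, Lp.norm_def, hm.eLpNorm_eq_integral_rpow_norm hp0 hp.ne]
  have h2 : 0 ≤ ∫ x, ‖(f : ℝ → ℂ) x‖ ^ p.toReal ∂mu :=
    integral_nonneg fun x => Real.rpow_nonneg (norm_nonneg _) _
  rw [ENNReal.toReal_ofReal (Real.rpow_nonneg h2 _), ← Real.rpow_mul h2,
    inv_mul_cancel₀ (ENNReal.toReal_pos hp0 hp.ne).ne', Real.rpow_one]

lemma tail_small (p : ENNReal) [Fact (1 ≤ p)] (hp : p < ⊤) (hp1 : 1 < p) (f : LpI p) (ε : ℝ)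
    (hε : 0 < ε) : ∃ R : ℝ, ∀ t : ℝ, R ≤ t →
      ∫ x in Set.Ioc (0 : ℝ) (Real.exp (-t)), ‖(f : ℝ → ℂ) x‖ ^ p.toReal ≤ ε := by
  have hi := (norm_pow p hp hp1 f).1
  have hi' : IntegrableOn (fun x => ‖(f : ℝ → ℂ) x‖ ^ p.toReal) (Set.Ioc (0 : ℝ) 1) volume := by
    have h2 : IntegrableOn (fun x => ‖(f : ℝ → ℂ) x‖ ^ p.toReal) (Set.Icc (0 : ℝ) 1) volume := hi
    exact h2.mono_set Set.Ioc_subset_Icc_self
  have hsub : ∀ t : ℝ, 0 ≤ t → Set.Ioc (0 : ℝ) (Real.exp (-t)) ⊆ Set.Ioc (0 : ℝ) 1 := by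
    intro t ht
    exact Set.Ioc_subset_Ioc_right (by rw [← Real.exp_zero]; exact Real.exp_le_exp.mpr (by linarith))
  have htend : Tendsto (fun n : ℕ => ∫ x in Set.Ioc (0 : ℝ) (Real.exp (-(n : ℝ))),
      ‖(f : ℝ → ℂ) x‖ ^ p.toReal) atTop
      (𝓝 (∫ x in ⋂ n : ℕ, Set.Ioc (0 : ℝ) (Real.exp (-(n : ℝ))), ‖(f : ℝ → ℂ) x‖ ^ p.toReal)) := by
    apply tendsto_setIntegral_of_antitone
    · intro n; exact measurableSet_Ioc
    · intro m n hmn
      apply Set.Ioc_subset_Ioc_right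
      apply Real.exp_le_exp.mpr
      have : (m : ℝ) ≤ n := by exact_mod_cast hmn
      linarith
    · refine ⟨0, ?_⟩
      exact hi'.mono_set (hsub _ (by simp))
  have hemp : (⋂ n : ℕ, Set.Ioc (0 : ℝ) (Real.exp (-(n : ℝ)))) = ∅ := by
    rw [Set.eq_empty_iff_forall_notMem]
    intro x hx
    rw [Set.mem_iInter] at hx
    have h0 : 0 < x := (hx 0).1
    obtain ⟨n, hn⟩ := exists_nat_gt (-Real.log x)
    have h1 := (hx n).2
    have h2 : Real.exp (-(n : ℝ)) < x := by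
      rw [← Real.exp_log h0]
      apply Real.exp_lt_exp.mpr
      linarith
    linarith
  rw [hemp, setIntegral_empty] at htend
  have hev := (tendsto_order.1 htend).2 ε hε
  obtain ⟨n, hn⟩ := hev.exists
  refine ⟨n, fun t ht => ?_⟩
  refine le_trans ?_ hn.le
  apply setIntegral_mono_set
  · exact hi'.mono_set (hsub _ (by positivity))
  · exact ae_of_all _ fun x => Real.rpow_nonneg (norm_nonneg _) _
  · apply LE.le.eventuallyLE
    apply Set.Ioc_subset_Ioc_right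
    apply Real.exp_le_exp.mpr
    linarith

end RSYS_aux

open RSYS_aux in
theorem RSYS_proved (TR : S_TR) (AEC : S_AEC) (WW : S_WW) (JJ : S_JJ) (EXP : S_EXP) (GEO : S_GEO)
    (SMO : S_SMO) : S_RSYS := by
  intro p _ hp1 hp2
  have hpt : p < ⊤ := lt_trans hp2 (by norm_num)
  obtain ⟨T, hT⟩ := TR p hpt
  obtain ⟨w, hw⟩ := WW p hp1 hpt
  obtain ⟨J, hJ⟩ := JJ p hpt
  obtain ⟨e, he⟩ := EXP p hpt
  have hwT : ∀ δ, 0 < δ → ∀ r, 0 ≤ r → ∀ f : LpI p, w δ (T r f) = wfun p δ (tfun p r f) := by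
    intro δ hδ r hr f
    rw [(hw δ hδ (T r f)).1]
    exact wfun_congr p δ hδ _ _ (hT r hr f).1
  let S : Sys p (LpI p) :=
    { T := T
      T_le := fun r hr f => (hT r hr f).2
      T_zero := by
        intro f
        apply Lp.ext
        have := (hT 0 le_rfl f).1
        rwa [tfun_zero] at this
      T_add := by
        intro r s hr hs f
        apply Lp.ext
        refine (hT (r + s) (add_nonneg hr hs) f).1.trans ?_
        rw [tfun_add]
        refine (AEC p r _ _ hr (hT s hs f).1).symm.trans ?_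
        exact (hT r hr (T s f)).1.symm
      e := e
      T_e := by
        intro r s hr hs
        apply Lp.ext
        refine (hT r hr (e s)).1.trans ?_
        refine (AEC p r _ _ hr (he s hs)).trans ?_
        have h1 := Lp.coeFn_smul (Complex.exp (-(r * s))) (e s)
        refine EventuallyEq.trans ?_ h1.symm
        filter_upwards [he s hs, ae_pos] with x hx hx0
        rw [cpow_shift p r s x hx0.1, Pi.smul_apply, smul_eq_mul, hx]
      J := J
      J_le := fun δ hδ b => (hJ δ hδ b).2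
      T_J := by
        intro δ hδ b b' hb
        apply Lp.ext
        refine (hT δ hδ.le (J δ b)).1.trans ?_
        refine (AEC p δ _ _ hδ.le (hJ δ hδ b).1).trans ?_
        refine EventuallyEq.trans ?_ (hJ δ hδ b').1.symm
        filter_upwards [ae_pos] with x hx0
        exact jfun_shift p δ hδ _ _ hb x hx0.1 hx0.2
      w := w
      w_sum := by
        intro δ hδ f n
        have h1 := (hw δ hδ f).2 0 n
        simp only [zero_add, Nat.cast_zero, zero_mul, neg_zero, Real.exp_zero] at h1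
        rw [(norm_pow p hpt hp1 f).2] at h1
        refine le_trans (le_of_eq ?_) h1
        apply Finset.sum_congr rfl
        intro k _
        rw [hwT δ hδ _ (by positivity) f]
      J_geo := by
        intro δ hδ l hl hl1 b hb
        refine GEO p hp1 hp2 e he δ hδ l hl hl1 (J δ b) ?_
        have h1 := (hJ δ hδ b).1
        have h2 : (b : ℕ → ℂ) = fun k => l ^ k := funext hb
        rwa [h2] at h1
      Sm := {f : LpI p | ∃ f₁ : LpI p, (f : ℝ → ℂ) =ᵐ[mu] hardyFun f₁}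
      Sm_est := by
        intro f hf
        obtain ⟨f₁, hf₁⟩ := hf
        obtain ⟨C, hC⟩ := SMO p hp1 hpt f₁ f hf₁
        refine ⟨C, fun δ hδ hδ1 b hb => ?_⟩
        refine hC δ hδ hδ1 b (J δ b) ?_ (hJ δ hδ b).1
        intro k
        rw [hb k, hwT δ hδ _ (by positivity) f] }
  refine ⟨S, he, fun r hr f => (hT r hr f).1, rfl, ?_⟩
  intro f ε hε
  obtain ⟨R, hR⟩ := tail_small p hpt hp1 f ε hε
  refine ⟨R, fun δ hδ k n hk => ?_⟩
  refine le_trans ?_ (hR (k * δ) hk)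
  refine le_trans (le_of_eq ?_) ((hw δ hδ f).2 k n)
  apply Finset.sum_congr rfl
  intro j _
  change ‖w δ (T (((k + j : ℕ) : ℝ) * δ) f)‖ ^ p.toReal = _
  rw [hwT δ hδ _ (by positivity) f]

end HM
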