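import Pool.Agent.H67.HM.RES
import Pool.Agent.H67.HM.RSYS
import Pool.Agent.H11.HM.Hardy
import Pool.Agent.H29.HM.SMO
import Pool.Agent.H37.HM.WW
import Pool.Agent.H51.HM.ASM
import Pool.Agent.H51.HM.GEO
import Pool.Agent.H51.HM.REC
import Pool.Agent.H53.HM.ABS
import Pool.Agent.H53.HM.KEY
import Pool.Agent.H54.HM.Sep
import Pool.Agent.H66.HM.FRE
import Pool.Agent.H66.HM.FLAT
import Pool.Agent.H66.HM.FLN
import Pool.Agent.H69.HM.CLOSE
import Pool.Agent.H69.HM.MOM
import Pool.Agent.H83.HM.FA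
import Pool.Agent.H83.HM.Step
import Pool.Agent.H87.HM.CORR
import Pool.Agent.H97.HM.Disc
import Pool.Agent.H97.HM.Win

/-!
# Invariant subspaces of the Hardy operator on `L^p[0,1]`, `1 < p < 2`

For every `1 < p < 2`, every closed subspace of `L^p[0,1]` that is invariant under the Hardy
operator `f ↦ (1/x) ∫₀ˣ f` is a limit of finite monomial spaces. The definitions (`HM.mu`,
`HM.hardyFun`, `HM.LpI`, `HM.HardyInvariant`, `HM.monoSpan`, `HM.IsMonomialSpace`) are in
`Pool/Agent/H67/HM/Defs.lean`.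
-/

namespace Pool.Agent.Results.MP_dc8965_an.HardyBelowTwo

open HM

theorem result (p : ENNReal) [Fact (1 ≤ p)] (hp1 : 1 < p) (hp2 : p < 2)
    (M : Submodule ℂ (LpI p)) (hM : IsClosed (M : Set (LpI p))) (hH : HardyInvariant p M) :
    IsMonomialSpace p M := by
  have hFLAT : S_FLAT := FLAT_proved FRE_proved
  have hFLN : S_FLN := FLN_proved hFLAT
  have hSTEP : S_STEP := STEP_proved hFLN CORR_proved SPRN_proved YNG_proved TOEP_proved
  have hITER : S_ITER := ITER_proved hSTEP
  have hCLOSE : S_CLOSE := CLOSE_proved hFLN t_SEP NEU_proved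
  have hDISC : S_DISC := DISC_proved WIN_proved hITER hCLOSE
  have hKEY : S_KEY := KEY_proved hDISC REC_proved DUAL_proved HOL_proved
  have hABS : S_ABS := ABS_proved hKEY ASM_proved
  have hHOP : S_HOP := H11.HM.t_HOP TR_proved AEC_proved
  have hRINV : S_RINV := H11.HM.t_RINV hHOP (H11.HM.t_SCO AEC_proved) (H11.HM.t_HPW AEC_proved)
    MOM_proved
  have hRSYS : S_RSYS := RSYS_proved TR_proved AEC_proved Pool.Agent.H37.HM.WW_proved JJ_proved EXP_proved GEO_proved
    SMO_proved
  exact RES_proved hRSYS hRINV hABS hHOP p hp1 hp2 M hM hH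

end Pool.Agent.Results.MP_dc8965_an.HardyBelowTwo
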