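import Pool.Agent.H67.HM.Stm

open Polynomial MeasureTheory Filter Topology

namespace HM

namespace RES_aux

instance instFinMu : IsFiniteMeasure mu := by
  unfold mu; infer_instance

lemma span_eq (p : ENNReal) [Fact (1 ≤ p)] (S : Sys p (LpI p))
    (he : ∀ s : ℂ, 0 < s.re →
      (S.e s : ℝ → ℂ) =ᵐ[mu] fun x : ℝ => (x : ℂ) ^ (s - 1 / (p.toReal : ℂ)))
    (Λ : Finset ℂ) (hΛ : ∀ s ∈ Λ, 0 < s.re) :
    Submodule.span ℂ (S.e '' (Λ : Set ℂ)) =
      monoSpan p (Λ.image (fun s => s - 1 / (p.toReal : ℂ))) := by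
  unfold monoSpan
  congr 1
  ext g
  constructor
  · rintro ⟨s, hs, rfl⟩
    refine ⟨s - 1 / (p.toReal : ℂ), Finset.mem_image_of_mem _ (by simpa using hs), he s (hΛ s (by simpa using hs))⟩
  · rintro ⟨t, ht, hg⟩
    obtain ⟨s, hs, rfl⟩ := Finset.mem_image.1 ht
    refine ⟨s, by simpa using hs, ?_⟩
    apply Lp.ext
    exact (he s (hΛ s hs)).trans hg.symm

end RES_aux

open RES_aux

theorem RES_proved (h1 : S_RSYS) (h2 : S_RINV) (h3 : S_ABS) (h4 : S_HOP) : S_RES := by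
  intro p hp1 h1p hp2 M hMc hMinv
  have hptop : p < ⊤ := lt_trans hp2 ENNReal.ofNat_lt_top
  have hptop' : p ≠ ⊤ := hptop.ne
  haveI : Fact (p ≠ ⊤) := ⟨hptop'⟩
  obtain ⟨S, he, hT, hSm, htail⟩ := h1 p h1p hp2
  have hTT : ∀ r, 0 ≤ r → ∀ f : LpI p,
      (S.T r f : ℝ → ℂ) =ᵐ[mu] tfun p r f ∧ ‖S.T r f‖ ≤ ‖f‖ :=
    fun r hr f => ⟨hT r hr f, S.T_le r hr f⟩
  obtain ⟨hinv, hden⟩ := h2 p h1p hp2 S.T hTT M hMc hMinv
  obtain ⟨H, hH⟩ := h4 p h1p hptop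
  have htopinv : HardyInvariant p (⊤ : Submodule ℂ (LpI p)) :=
    fun f _ => ⟨H f, Submodule.mem_top, hH f⟩
  obtain ⟨-, hden'⟩ := h2 p h1p hp2 S.T hTT ⊤ (by simp) htopinv
  have hdense : Dense S.Sm := by
    intro f
    have := hden' (by simp : f ∈ ((⊤ : Submodule ℂ (LpI p)) : Set (LpI p)))
    rw [hSm]
    simpa using this
  rw [← hSm] at hden
  obtain ⟨Λ, hΛ, hfin⟩ := h3 p h1p hp2 (LpI p) S M hMc hinv hden hdense htail
  refine ⟨fun n => (Λ n).image (fun s => s - 1 / (p.toReal : ℂ)), ?_, ?_⟩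
  · intro n t ht
    obtain ⟨s, hs, rfl⟩ := Finset.mem_image.1 ht
    have := hΛ n s hs
    have hre : ((1 : ℂ) / (p.toReal : ℂ)).re = 1 / p.toReal := by
      rw [← Complex.ofReal_one, ← Complex.ofReal_div, Complex.ofReal_re]
    rw [Complex.sub_re, hre]
    linarith
  · intro f
    rw [hfin f]
    have : ∀ n, Submodule.span ℂ (S.e '' ((Λ n : Finset ℂ) : Set ℂ)) =
      monoSpan p ((Λ n).image (fun s => s - 1 / (p.toReal : ℂ))) :=
      fun n => span_eq p S he (Λ n) (hΛ n)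
    simp only [this]

end HM
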