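import Pool.Agent.H67.HM.Defs

open Polynomial MeasureTheory Filter Topology

namespace HM

/-! Discrete parts. Everywhere `1 < p < 2`, `q = p/(p-1) > 2`. Polynomials are finitely supported
sequences on `ℕ`; `cor A f k = ∑_j A_j f_(j+k)`; `Bd r f B` means `∑_k |f_k|^r ≤ B`. -/

/-- FRE: Fresnel integrals. `|∫_a^b e^(i m x²) dx| ≤ C/√m`, and the symmetric second order bound
far from the stationary point: if `a < b < 0` and `m (a² - b²) = 2 π k`, `k` an integer, then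
`|∫_a^b e^(i m x²) dx| ≤ C (b - a) / (m a b)` (integrate by parts once, the boundary phases agree,
the boundary terms combine to `e^(i m a²) (1/b - 1/a) / (2 i m)`; the remaining integral is bounded by
`(1/2m) ∫ dt/t²`). -/
def S_FRE : Prop := ∃ C : ℝ, 0 < C ∧
  (∀ m a b : ℝ, 0 < m → a ≤ b → ‖∫ x in a..b, Complex.exp (Complex.I * (m * x ^ 2))‖ ≤ C / √m) ∧
  (∀ (m a b : ℝ) (k : ℤ), 0 < m → a < b → b < 0 → m * (a ^ 2 - b ^ 2) = 2 * Real.pi * k →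
    ‖∫ x in a..b, Complex.exp (Complex.I * (m * x ^ 2))‖ ≤ C * (b - a) / (m * (a * b)))

/-- FLAT: flat polynomials. `V(θ) = e^(i n θ²/(4π))` on `[-π, π]` is continuous and unimodular on the
circle, its Fourier coefficients are `e^(-iπk²/n)/(2π) ∫_(-π-x)^(π-x) e^(i n t²/(4π)) dt`, `x = 2πk/n`,
so `|c_k| ≤ C/√n` and, by the second part of FRE (for `k ≥ n`; negative `k` by symmetry),
`|c_k| ≤ C n/k²`. The Fourier series converges absolutely and uniformly (Mathlib: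
`hasSum_fourier_series_of_summable`), truncate at `|k| ≤ κ ≈ C n/η` and multiply by `z^κ`. -/
def S_FLAT : Prop := ∃ C : ℝ, 0 < C ∧ ∀ (n : ℕ) (η : ℝ), 1 ≤ n → 0 < η → η ≤ 1 →
  ∃ (c : ℂ[X]) (κ : ℕ), (κ : ℝ) ≤ C * n / η ∧ c.natDegree ≤ 2 * κ ∧
    (∀ k, ‖c.coeff k‖ ≤ C / √n) ∧
    (∀ k : ℕ, (n : ℝ) ≤ |(k : ℝ) - κ| → ‖c.coeff k‖ ≤ C * n / ((k : ℝ) - κ) ^ 2) ∧
    ∀ z : ℂ, ‖z‖ = 1 → |‖c.eval z‖ ^ 2 - 1| ≤ η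

/-- FLN: norms of the flat polynomials, `∑ |c_k|^r ≤ C_r n^(1-r/2)` for `r > 1` (from the two
coefficient bounds: `2n+1` coefficients of size `n^(-1/2)`, and `∑_(|j|≥n) (n/j²)^r ≤ C n^(1-r)`). -/
def S_FLN : Prop := ∀ r : ℝ, 1 < r → ∃ C : ℝ, 0 < C ∧ ∀ (n : ℕ) (η : ℝ), 1 ≤ n → 0 < η → η ≤ 1 →
  ∃ (c : ℂ[X]), (c.natDegree : ℝ) ≤ C * n / η ∧ Bd r c.coeff (C * (n : ℝ) ^ (1 - r / 2)) ∧
    Bd (r / (r - 1)) c.coeff (C * (n : ℝ) ^ (1 - (r / (r - 1)) / 2)) ∧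
    ∀ z : ℂ, ‖z‖ = 1 → |‖c.eval z‖ ^ 2 - 1| ≤ η

/-- TOEP: Parseval on the circle: multiplication by a polynomial bounded by `s` on the circle. -/
def S_TOEP : Prop := ∀ (g x : ℂ[X]) (s B : ℝ), 0 ≤ s → (∀ z : ℂ, ‖z‖ = 1 → ‖g.eval z‖ ≤ s) →
  Bd 2 x.coeff B → Bd 2 (g * x).coeff (s ^ 2 * B)

/-- CORR: the algebra of correlations with `c` and its conjugate: for `c̄` the polynomial with
conjugate coefficients and `|c(z)|² = 1 + s(z)` on the circle, `|s| ≤ η`,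
`cor (c̄(X^T) Q) (c(X^T) u) = cor Q u + error`, and the error has `ℓ²` norm at most
`η` times the `ℓ²` norm of the two-sided correlation of `Q` and `u` (which is
`reflect(Q) * u`). Use TOEP for `g = z^(dT) (|c(z^T)|² - 1)`, `d = deg c`. -/
def S_CORR : Prop := ∀ (c Q u : ℂ[X]) (T : ℕ) (η B : ℝ), 0 < T → 0 ≤ η →
  (∀ z : ℂ, ‖z‖ = 1 → |‖c.eval z‖ ^ 2 - 1| ≤ η) →
  Bd 2 (Q.reverse * u).coeff B →
  Bd 2 (fun k => cor (expand ℂ T (c.map (starRingEnd ℂ)) * Q) (expand ℂ T c * u).coeff k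
    - cor Q u.coeff k) (η ^ 2 * B)

/-- SPRN: norms of spread polynomials: for `T > deg Q` the coefficients of `c(X^T) Q` are the
products of the coefficients. -/
def S_SPRN : Prop := ∀ (c Q : ℂ[X]) (T : ℕ) (r B B' : ℝ), Q.natDegree < T → 0 < r →
  Bd r c.coeff B → Bd r Q.coeff B' → Bd r (expand ℂ T c * Q).coeff (B * B')

/-- YNG: `‖cor A f‖₂ ≤ ‖A‖₁ ‖f‖₂`. -/
def S_YNG : Prop := ∀ (A : ℂ[X]) (f : ℕ → ℂ) (B : ℝ), 0 ≤ B → Bd 2 f B →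
  Bd 2 (cor A f) ((∑ j ∈ A.support, ‖A.coeff j‖) ^ 2 * B)

/-- STEP. Let `C`, `n` large, `c` the flat polynomial with `η` small, `T > deg Q, deg u_i`,
`μ = C^(-1/q) n^(1/2-1/q)`, `Q' = X^D μ c̄(X^T) Q`, `u_i' = X^D μ⁻¹ c(X^T) u_i`, `D > B`, `D > deg A`.
Then `∑|Q'|^q ≤ ∑|Q|^q`, `∑|u'|^p ≤ C' ∑|u|^p`,
`cor (A+Q') (F+u') = cor A F + cor A u' + cor Q' F + cor Q' u'`; here `cor Q' F = 0`
(`D > deg F`), `cor Q' u' = cor Q u` up to `η‖..‖` (CORR), and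
`‖cor A u'‖₂ ≤ ‖A‖₁ ‖u'‖₂ ≤ ‖A‖₁ μ⁻¹ 2‖u‖_..→ 0` as `n → ∞` since `μ → ∞` (`q > 2`). -/
def S_STEP : Prop := ∀ p : ℝ, 1 < p → p < 2 → ∃ C : ℝ, 1 ≤ C ∧
  ∀ (m : ℕ) (A Q : ℂ[X]) (F u : Fin m → ℂ[X]) (B : ℕ) (η : ℝ), 0 < η →
  ∃ (Q' : ℂ[X]) (u' : Fin m → ℂ[X]),
    (∀ k ≤ B, Q'.coeff k = 0) ∧ (∀ i, ∀ k ≤ B, (u' i).coeff k = 0) ∧
    (∀ N, Bd (p / (p - 1)) Q.coeff N → Bd (p / (p - 1)) Q'.coeff N) ∧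
    (∀ i N, Bd p (u i).coeff N → Bd p (u' i).coeff (C * N)) ∧
    ∀ i, Bd 2 (fun k => cor (A + Q') (F i + u' i).coeff k - cor A (F i).coeff k
      - cor Q (u i).coeff k) η

/-- ITER: iterate STEP over finitely many pairs `(Q_r, u_r)` (`B` increasing, so that all supports
are disjoint and the power sums add up; errors `η/4^r`...). -/
def S_ITER : Prop := ∀ p : ℝ, 1 < p → p < 2 → ∃ C : ℝ, 1 ≤ C ∧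
  ∀ (m R : ℕ) (A : ℂ[X]) (F : Fin m → ℂ[X]) (Q : ℕ → ℂ[X]) (u : ℕ → Fin m → ℂ[X]) (B : ℕ)
    (η : ℝ) (a b : ℕ → ℝ), 0 < η →
  (∀ r < R, Bd (p / (p - 1)) (Q r).coeff (a r)) → (∀ r < R, ∀ i, Bd p (u r i).coeff (b r)) →
  ∃ (Q' : ℂ[X]) (u' : Fin m → ℂ[X]),
    (∀ k ≤ B, Q'.coeff k = 0) ∧ (∀ i, ∀ k ≤ B, (u' i).coeff k = 0) ∧
    Bd (p / (p - 1)) Q'.coeff (∑ r ∈ Finset.range R, a r) ∧
    (∀ i, Bd p (u' i).coeff (C * ∑ r ∈ Finset.range R, b r)) ∧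
    ∀ i, Bd 2 (fun k => cor (A + Q') (F i + u' i).coeff k - cor A (F i).coeff k
      - ∑ r ∈ Finset.range R, cor (Q r) (u r i).coeff k) η

/-- WIN (Herz windows). `P` = truncation of `γ` to `[0,L)`, `F_i` = truncation of `a_i` to `[0,L)`,
windows `x(k) = L^(-1/q) 1_(0≤k<L)`, `y(k) = L^(-1/p) 1_(0≤k<2L)`, `φ(m) = ∑_t x(t) y(t+m)` (`= 1` for
`m ≤ L`, between 0 and 1, zero for `m ≥ 2L`); for `L' ≥ L` large and `r ∈ (-L', L)` put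
`Q_r(k) = γ_k x(k+r) 1_(k<L')`, `u_(r,i)(k) = a_i(k) y(k+r) 1_(L≤k<L')`. Then
`∑_r cor Q_r u_(r,i) = φ · (γ ⋆ a_i 1_[L,L'))`, so with `c = γ ⋆ a_i`:
`cor P F_i + ∑_r cor Q_r u_(r,i) = φ (c - γ ⋆ a_i 1_[L',∞))` (as `cor P F_i = γ ⋆ a_i 1_[0,L)` is
supported on `[0,L)` where `φ = 1`), supported on `[0,2L)`, and `|γ ⋆ a_i 1_[L',∞)| ≤ ‖a_i 1_[L',∞)‖_p`.
Also `∑_r ‖Q_r‖_q^q ≤ ‖γ‖_q^q`, `∑_r ‖u_(r,i)‖_p^p ≤ 2 ‖a_i 1_[L,∞)‖_p^p`. -/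
def S_WIN : Prop := ∀ p : ℝ, 1 < p → p < 2 →
  ∀ (m L : ℕ) (γ : ℕ → ℂ) (a : Fin m → ℕ → ℂ) (ε : ℝ), 0 < L → 0 < ε →
  Bd (p / (p - 1)) γ 1 → (∀ i, ∃ N, Bd p (a i) N) →
  (∀ i, Bd p (fun k => a i (L + k)) (ε ^ p)) →
  (∀ i k, 2 * L * ‖∑' j : ℕ, γ j * a i (j + k)‖ ^ 2 ≤ ε ^ 2) →
  ∃ (P : ℂ[X]) (F : Fin m → ℂ[X]) (R : ℕ) (Q : ℕ → ℂ[X]) (u : ℕ → Fin m → ℂ[X])
    (x y : ℕ → ℝ),
    (∀ k, P.coeff k = if k < L then γ k else 0) ∧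
    (∀ i k, (F i).coeff k = if k < L then a i k else 0) ∧
    (∀ r < R, Bd (p / (p - 1)) (Q r).coeff (x r)) ∧ ∑ r ∈ Finset.range R, x r ≤ 1 ∧
    (∀ r < R, ∀ i, Bd p (u r i).coeff (y r)) ∧ ∑ r ∈ Finset.range R, y r ≤ 2 * m * ε ^ p ∧
    ∀ i, Bd 2 (fun k => cor P (F i).coeff k + ∑ r ∈ Finset.range R, cor (Q r) (u r i).coeff k)
      ((2 * ε) ^ 2)

/-- SEP: polynomials with simple nonzero roots are dense (move the roots). -/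
def S_SEP : Prop := ∀ (A : ℂ[X]) (ε : ℝ), 0 < ε → ∃ G : ℂ[X], G.Separable ∧ G.coeff 0 ≠ 0 ∧
  G.natDegree ≤ A.natDegree ∧ ∀ k, ‖G.coeff k - A.coeff k‖ ≤ ε

/-- NEU: exact solution for a polynomial with `|G|² ≈ λ²` on the circle.
`T y = cor G (Ḡ y)`, `‖y - λ⁻²T y‖₂ ≤ ‖y‖₂/2` for polynomials `y` (TOEP: `z^d(1-λ⁻²|G|²)`, and drop the
negative coefficients), degrees grow by at most `d = deg G`. `h = -λ⁻² ∑_k Ḡ (1-λ⁻²T)^k E`, and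
`‖·‖_p ≤ (length)^(1/p-1/2) ‖·‖₂` for each term; `cor G` of the partial sums telescopes. -/
def S_NEU : Prop := ∀ p : ℝ, 1 < p → p < 2 → ∃ K : ℝ, 0 < K ∧
  ∀ (G : ℂ[X]) (l : ℝ) (d : ℕ) (E : ℕ → ℂ) (ε : ℝ), 0 < l → 0 < d → 0 ≤ ε → G.natDegree ≤ d →
  (∀ z : ℂ, ‖z‖ = 1 → |‖G.eval z‖ ^ 2 - l ^ 2| ≤ l ^ 2 / 2) →
  (∀ k, d < k → E k = 0) → Bd 2 E (ε ^ 2) →
  ∃ h : ℕ → ℂ, Bd p h ((K * (d : ℝ) ^ (1 / p - 1 / 2) / l * ε) ^ p) ∧ ∀ k, cor G h k = - E k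

/-- CLOSE. `c` = flat polynomial with `η` a small absolute constant (FLN), `λ = C^(-1/q) n^(1/2-1/q)`,
`A₁ = A + X^D λ c`, `D > B, deg A, deg F_i`, `n` so large that `λ ≥ 100 ∑|A_k|` and `n ≥ D`, `G` a tiny
perturbation of `A₁` from SEP. `cor G F_i` is close to `cor A F_i`. Then NEU with `d ≈ C' n`,
cost `K d^(1/p-1/2)/λ · ε ≤ K' ε` because `1/p - 1/2 = 1/2 - 1/q`. -/
def S_CLOSE : Prop := ∀ p : ℝ, 1 < p → p < 2 → ∃ K : ℝ, 0 < K ∧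
  ∀ (m : ℕ) (A : ℂ[X]) (F : Fin m → ℂ[X]) (ε : ℝ), 0 < ε →
  (∀ i, Bd 2 (cor A (F i).coeff) (ε ^ 2)) → ∀ (B : ℕ) (η : ℝ), 0 < η →
  ∃ (G : ℂ[X]) (b : Fin m → ℕ → ℂ), G.Separable ∧ G.coeff 0 ≠ 0 ∧
    (∀ k ≤ B, ‖G.coeff k - A.coeff k‖ ≤ η) ∧
    (∀ N, Bd (p / (p - 1)) A.coeff N → Bd (p / (p - 1)) G.coeff (N + 2)) ∧
    ∀ i, Bd p (fun k => b i k - (F i).coeff k) ((K * ε) ^ p) ∧ ∀ k, cor G (b i) k = 0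

/-- DISC: from WIN, ITER, CLOSE. (`ε` in WIN; the error of ITER is chosen `≤ ε²`; truncations.) -/
def S_DISC : Prop := ∀ p : ℝ, 1 < p → p < 2 → ∀ m : ℕ, ∃ K : ℝ, 0 < K ∧
  ∀ (L : ℕ) (γ : ℕ → ℂ) (a : Fin m → ℕ → ℂ) (ε : ℝ), 0 < L → 0 < ε →
  Bd (p / (p - 1)) γ 1 → (∀ i, ∃ N, Bd p (a i) N) →
  (∀ i, Bd p (fun k => a i (L + k)) (ε ^ p)) →
  (∀ i k, 2 * L * ‖∑' j : ℕ, γ j * a i (j + k)‖ ^ 2 ≤ ε ^ 2) →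
  ∀ η : ℝ, 0 < η →
  ∃ (G : ℂ[X]) (b : Fin m → ℕ → ℂ), G.Separable ∧ G.coeff 0 ≠ 0 ∧
    (∀ k < L, ‖G.coeff k - γ k‖ ≤ η) ∧ Bd (p / (p - 1)) G.coeff 4 ∧
    ∀ i, Bd p (fun k => b i k - a i k) ((K * ε) ^ p) ∧ ∀ k, cor G (b i) k = 0

/-- REC: solutions in `c₀` of a linear recurrence with simple nonzero roots. -/
def S_REC : Prop := ∀ (G : ℂ[X]) (b : ℕ → ℂ), G.Separable → G.coeff 0 ≠ 0 →
  Tendsto b atTop (𝓝 0) → (∀ k, cor G b k = 0) →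
  ∃ (Λ : Finset ℂ) (c : ℂ → ℂ), (∀ l ∈ Λ, l ≠ 0 ∧ ‖l‖ < 1 ∧ G.eval l = 0) ∧
    ∀ k, b k = ∑ l ∈ Λ, c l * l ^ k

/-! Functional analysis. -/

/-- ASM: assembling a sequence of subspaces from local approximations (`X` separable). `x` dense in
`M`, `y` dense in `D`; `N_n` for the first `n` points of `M` and `y_(j(n))`, every index `j` occurring
infinitely often. -/
def S_ASM : Prop := ∀ (X : Type) [NormedAddCommGroup X] [NormedSpace ℂ X]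
  [TopologicalSpace.SeparableSpace X] (M : Submodule ℂ X) (D M₀ : Set X) (ι : Type)
  (N : ι → Submodule ℂ X) (c : ℝ), IsClosed (M : Set X) → 0 < c → Dense D →
  M₀ ⊆ M → (M : Set X) ⊆ closure M₀ →
  (∀ (m : ℕ) (f : Fin m → X), (∀ i, f i ∈ M₀) → ∀ ε : ℝ, 0 < ε →
    ∃ i, ∀ j, Metric.infDist (f j) (N i) ≤ ε) →
  (∀ (m : ℕ) (f : Fin m → X), (∀ i, f i ∈ M₀) → ∀ ε : ℝ, 0 < ε → ∀ φ ∈ D, φ ∉ M →
    ∃ i, (∀ j, Metric.infDist (f j) (N i) ≤ ε) ∧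
      c * Metric.infDist φ (M : Set X) ≤ Metric.infDist φ (N i)) →
  ∃ s : ℕ → ι, ∀ f : X, f ∈ M ↔
    Tendsto (fun n => Metric.infDist f (N (s n) : Set X)) atTop (𝓝 0)

/-- DUAL: functionals on `ℓ^p`. -/
def S_DUAL : Prop := ∀ (p : ENNReal) [Fact (1 ≤ p)], 1 < p → p < ⊤ →
  ∀ (g : (lp (fun _ : ℕ => ℂ) p) →L[ℂ] ℂ), ‖g‖ ≤ 1 →
  ∃ γ : ℕ → ℂ, Bd (p.toReal / (p.toReal - 1)) γ 1 ∧
    ∀ b : lp (fun _ : ℕ => ℂ) p, HasSum (fun k => γ k * b k) (g b)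

/-- HOL: Hölder for finite sums: `∑ |x_k y_k| ≤ (∑|x|^q)^(1/q) (∑|y|^p)^(1/p)` with `Bd`. -/
def S_HOL : Prop := ∀ (p : ℝ), 1 < p → ∀ (x y : ℕ → ℂ) (s t : ℝ), 0 ≤ s → 0 ≤ t →
  Bd (p / (p - 1)) x (s ^ (p / (p - 1))) → Bd p y (t ^ p) →
  ∀ n, ∑ k ∈ Finset.range n, ‖x k * y k‖ ≤ s * t

/-- KEY: one functional. `δ` small, `L = ⌈ℓ/δ⌉`, `γ` from DUAL for `g ∘ J δ`,
`a_i(k) = w δ (T (kδ) f_i)`; `∑ γ_j a_i(j+k) = g (J δ (shift^k a_i)) = g (T (kδ) (J δ a_i - f_i))` is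
`O(δ)`, so the hypothesis of DISC holds for `δ` small; apply DISC, REC; the functional
`g'' = ∑_k G_k w δ ∘ T (kδ)` has norm `≤ 4`, vanishes on all `e s` with `exp(-δ s)` a root of `G`, and
`g''(φ)` is close to `g(J δ a(φ))`, hence to `g φ`; `J δ b_i` is in the closed span of those `e s`. -/
def S_KEY : Prop := ∀ (p : ENNReal) [Fact (1 ≤ p)], 1 < p → p < 2 →
  ∀ (X : Type) [NormedAddCommGroup X] [NormedSpace ℂ X] (S : Sys p X)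
    (g : X →L[ℂ] ℂ), ‖g‖ ≤ 1 → ∀ (m : ℕ) (f : Fin m → X), (∀ i, f i ∈ S.Sm) →
  (∀ i, ∀ r, 0 ≤ r → g (S.T r (f i)) = 0) → ∀ φ ∈ S.Sm, ∀ ε : ℝ, 0 < ε →
  (∀ f : X, ∀ ε : ℝ, 0 < ε → ∃ R : ℝ, ∀ δ, 0 < δ → ∀ (k n : ℕ), R ≤ k * δ →
    ∑ j ∈ Finset.range n, ‖S.w δ (S.T ((k + j : ℕ) * δ) f)‖ ^ p.toReal ≤ ε) →
  ∃ (Λ : Finset ℂ) (g' : X →L[ℂ] ℂ), (∀ s ∈ Λ, 0 < s.re) ∧ ‖g'‖ ≤ 4 ∧
    (∀ s ∈ Λ, g' (S.e s) = 0) ∧ ‖g' φ - g φ‖ ≤ ε ∧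
    ∀ i, Metric.infDist (f i) (Submodule.span ℂ (S.e '' (Λ : Set ℂ)) : Set X) ≤ ε

/-- ABS: the abstract theorem, from KEY, ASM and Hahn-Banach (for `φ ∉ M` take `g` of norm 1 vanishing
on `M` with `|g φ| ≥ dist(φ, M)`; `‖g'‖ ≤ 4`, `g' = 0` on `N`, `|g' φ| ≥ dist(φ,M)/2` give
`dist(φ, N) ≥ dist(φ, M)/8`). -/
def S_ABS : Prop := ∀ (p : ENNReal) [Fact (1 ≤ p)], 1 < p → p < 2 →
  ∀ (X : Type) [NormedAddCommGroup X] [NormedSpace ℂ X] [TopologicalSpace.SeparableSpace X]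
    (S : Sys p X) (M : Submodule ℂ X), IsClosed (M : Set X) →
  (∀ r, 0 ≤ r → ∀ f ∈ M, S.T r f ∈ M) → (M : Set X) ⊆ closure (M ∩ S.Sm) → Dense S.Sm →
  (∀ f : X, ∀ ε : ℝ, 0 < ε → ∃ R : ℝ, ∀ δ, 0 < δ → ∀ (k n : ℕ), R ≤ k * δ →
    ∑ j ∈ Finset.range n, ‖S.w δ (S.T ((k + j : ℕ) * δ) f)‖ ^ p.toReal ≤ ε) →
  ∃ Λ : ℕ → Finset ℂ, (∀ n, ∀ s ∈ Λ n, 0 < s.re) ∧ ∀ f : X, f ∈ M ↔
    Tendsto (fun n => Metric.infDist f (Submodule.span ℂ (S.e '' (Λ n : Set ℂ)) : Set X))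
      atTop (𝓝 0)

/-! The concrete space `L^p[0,1]`. -/

/-- TR: dilations `f ↦ e^(-r/p) f(e^(-r) x)` as contractions. -/
def S_TR : Prop := ∀ (p : ENNReal) [Fact (1 ≤ p)], p < ⊤ →
  ∃ T : ℝ → LpI p →L[ℂ] LpI p, ∀ r, 0 ≤ r → ∀ f : LpI p,
    (T r f : ℝ → ℂ) =ᵐ[mu] tfun p r f ∧ ‖T r f‖ ≤ ‖f‖

/-- AEC: composition with dilations respects a.e. equality. -/
def S_AEC : Prop := ∀ (p : ENNReal) (r : ℝ) (f g : ℝ → ℂ), 0 ≤ r → f =ᵐ[mu] g →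
  tfun p r f =ᵐ[mu] tfun p r g

/-- WW: block averages. The sum is `∑_k |δ^(-1/q) ∫_(block k) f x^(-1/q)|^p`, Hölder on each block
`(e^(-(k+1)δ), e^(-kδ)]` (`∫_(block) dx/x = δ`); also the tail statement: the sum over blocks
`≥ k` is at most `∫_0^(e^(-kδ)) |f|^p`. -/
def S_WW : Prop := ∀ (p : ENNReal) [Fact (1 ≤ p)], 1 < p → p < ⊤ →
  ∃ w : ℝ → LpI p →L[ℂ] ℂ, ∀ δ, 0 < δ → ∀ f : LpI p, w δ f = wfun p δ f ∧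
    ∀ k n : ℕ, ∑ j ∈ Finset.range n, ‖wfun p δ (tfun p ((k + j : ℕ) * δ) f)‖ ^ p.toReal ≤
      ∫ x in Set.Ioc (0 : ℝ) (Real.exp (-(k * δ))), ‖(f : ℝ → ℂ) x‖ ^ p.toReal

/-- JJ: the block embedding of `ℓ^p`. -/
def S_JJ : Prop := ∀ (p : ENNReal) [Fact (1 ≤ p)], p < ⊤ →
  ∃ J : ℝ → (lp (fun _ : ℕ => ℂ) p) →L[ℂ] LpI p, ∀ δ, 0 < δ → ∀ b : lp (fun _ : ℕ => ℂ) p,
    (J δ b : ℝ → ℂ) =ᵐ[mu] jfun p δ b ∧ ‖J δ b‖ ≤ ‖b‖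

/-- EXP: the functions `x^(s-1/p)`, `Re s > 0`, are in `L^p`. -/
def S_EXP : Prop := ∀ (p : ENNReal) [Fact (1 ≤ p)], p < ⊤ →
  ∃ e : ℂ → LpI p, ∀ s : ℂ, 0 < s.re →
    (e s : ℝ → ℂ) =ᵐ[mu] fun x : ℝ => (x : ℂ) ^ (s - 1 / (p.toReal : ℂ))

/-- GEO: `(δ x)^(-1/p) l^⌊-log x/δ⌋` is a limit of combinations of `x^(s-1/p)`, `e^(-δ s) = l`. With
`t = -log x`, `l = e^(-δ s₀)`, it is `δ^(-1/p) x^(-1/p) e^(-s₀ t) φ(t/δ)`, `φ(u) = e^(δ s₀ fract u)`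
one-periodic and bounded; trigonometric polynomials are dense in `L^2` (or `L^p`) of the circle
(Mathlib: `span_fourierLp_closure_eq_top`). -/
def S_GEO : Prop := ∀ (p : ENNReal) [Fact (1 ≤ p)], 1 < p → p < 2 →
  ∀ (e : ℂ → LpI p), (∀ s : ℂ, 0 < s.re →
    (e s : ℝ → ℂ) =ᵐ[mu] fun x : ℝ => (x : ℂ) ^ (s - 1 / (p.toReal : ℂ))) →
  ∀ δ : ℝ, 0 < δ → ∀ l : ℂ, l ≠ 0 → ‖l‖ < 1 → ∀ g : LpI p,
    ((g : ℝ → ℂ) =ᵐ[mu] jfun p δ (fun k => l ^ k)) → g ∈ closure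
      (Submodule.span ℂ {x : LpI p | ∃ s : ℂ, 0 < s.re ∧ Complex.exp (-(δ * s)) = l ∧ x = e s} :
        Set (LpI p))

/-- SMO: block approximation of `f = H f₁`. For `x, y` in the same block, `y ≤ x`:
`x^(1/p) f(x) - y^(1/p) f(y) = x^(-1/q) (F x - F y) + (x^(-1/q) - y^(-1/q)) F y`, `F = ∫₀ f₁`, the
first term is at most `e^(δ/q) ∫_(block) z^(-1/q) |f₁|`, the second at most `δ |y^(1/p) f(y)|`. The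
`L^p` norm of the difference to the block average is `≤ C δ (‖f₁‖ + ‖f‖)`. -/
def S_SMO : Prop := ∀ (p : ENNReal) [Fact (1 ≤ p)], 1 < p → p < ⊤ →
  ∀ f₁ f : LpI p, ((f : ℝ → ℂ) =ᵐ[mu] hardyFun f₁) → ∃ C : ℝ, ∀ δ, 0 < δ → δ ≤ 1 →
  ∀ (b : ℕ → ℂ) (g : LpI p), (∀ k : ℕ, b k = wfun p δ (tfun p (k * δ) f)) →
    ((g : ℝ → ℂ) =ᵐ[mu] jfun p δ b) → ‖f - g‖ ≤ C * δ

/-- HOP: Hardy's inequality (Minkowski: `Hf = ∫₀¹ f(xy) dy`), as a bounded operator. -/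
def S_HOP : Prop := ∀ (p : ENNReal) [Fact (1 ≤ p)], 1 < p → p < ⊤ →
  ∃ H : LpI p →L[ℂ] LpI p, ∀ f : LpI p, (H f : ℝ → ℂ) =ᵐ[mu] hardyFun f

/-- SCO: strong continuity of the dilations. -/
def S_SCO : Prop := ∀ (p : ENNReal) [Fact (1 ≤ p)], p < ⊤ →
  ∀ (T : ℝ → LpI p →L[ℂ] LpI p), (∀ r, 0 ≤ r → ∀ f : LpI p,
    (T r f : ℝ → ℂ) =ᵐ[mu] tfun p r f ∧ ‖T r f‖ ≤ ‖f‖) →
  ∀ f : LpI p, ContinuousOn (fun r => T r f) (Set.Ici 0)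

/-- HPW: powers of `H` in terms of the dilations, tested with a functional:
`g(H^(n+1) f) = ∫₀^∞ (t^n/n!) e^(-(1-1/p)t) g(T_t f) dt`. (`n = 0`: `Hf = ∫₀^∞ e^(-(1-1/p)t) T_t f dt` as a
Bochner integral in `L^p`, tested on sets; then induction with Fubini, as `H` commutes with
`T_t`.) -/
def S_HPW : Prop := ∀ (p : ENNReal) [Fact (1 ≤ p)], 1 < p → p < ⊤ →
  ∀ (T : ℝ → LpI p →L[ℂ] LpI p) (H : LpI p →L[ℂ] LpI p), (∀ r, 0 ≤ r → ∀ f : LpI p,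
    (T r f : ℝ → ℂ) =ᵐ[mu] tfun p r f ∧ ‖T r f‖ ≤ ‖f‖) →
  (∀ f : LpI p, ContinuousOn (fun r => T r f) (Set.Ici 0)) →
  (∀ f : LpI p, (H f : ℝ → ℂ) =ᵐ[mu] hardyFun f) →
  ∀ (g : LpI p →L[ℂ] ℂ) (f : LpI p) (n : ℕ),
    g ((H ^ (n + 1)) f) = ∫ t in Set.Ioi (0 : ℝ),
      ((t ^ n / n.factorial * Real.exp (-((1 - 1 / p.toReal) * t)) : ℝ) : ℂ) * g (T t f)

/-- MOM: a bounded continuous function orthogonal to all `t^n e^(-at)`, `n ≥ 0`, vanishes. -/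
def S_MOM : Prop := ∀ (a : ℝ) (u : ℝ → ℂ) (C : ℝ), 0 < a → ContinuousOn u (Set.Ici 0) →
  (∀ t, 0 ≤ t → ‖u t‖ ≤ C) →
  (∀ n : ℕ, ∫ t in Set.Ioi (0 : ℝ), ((t ^ n * Real.exp (-(a * t)) : ℝ) : ℂ) * u t = 0) →
  ∀ t, 0 ≤ t → u t = 0

/-- RSYS: the frame for `L^p[0,1]`: from TR, AEC, WW, JJ, EXP, GEO, SMO (everything is a.e. equality
of explicit functions). The tail statement from WW and dominated convergence. -/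
def S_RSYS : Prop := ∀ (p : ENNReal) [Fact (1 ≤ p)], 1 < p → p < 2 →
  ∃ S : Sys p (LpI p),
    (∀ s : ℂ, 0 < s.re →
      (S.e s : ℝ → ℂ) =ᵐ[mu] fun x : ℝ => (x : ℂ) ^ (s - 1 / (p.toReal : ℂ))) ∧
    (∀ r, 0 ≤ r → ∀ f : LpI p, (S.T r f : ℝ → ℂ) =ᵐ[mu] tfun p r f) ∧
    S.Sm = {f : LpI p | ∃ f₁ : LpI p, (f : ℝ → ℂ) =ᵐ[mu] hardyFun f₁} ∧
    ∀ f : LpI p, ∀ ε : ℝ, 0 < ε → ∃ R : ℝ, ∀ δ, 0 < δ → ∀ (k n : ℕ), R ≤ k * δ →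
      ∑ j ∈ Finset.range n, ‖S.w δ (S.T ((k + j : ℕ) * δ) f)‖ ^ p.toReal ≤ ε

/-- RINV: Hardy invariance gives invariance under dilations and density of `H(M)` in `M`. From HOP,
SCO, HPW, MOM and Hahn-Banach: if `g` vanishes on all `H^(n+1) f` then `g (T_t f) = 0` for all
`t ≥ 0`. -/
def S_RINV : Prop := ∀ (p : ENNReal) [Fact (1 ≤ p)], 1 < p → p < 2 →
  ∀ (T : ℝ → LpI p →L[ℂ] LpI p), (∀ r, 0 ≤ r → ∀ f : LpI p,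
    (T r f : ℝ → ℂ) =ᵐ[mu] tfun p r f ∧ ‖T r f‖ ≤ ‖f‖) →
  ∀ M : Submodule ℂ (LpI p), IsClosed (M : Set (LpI p)) → HardyInvariant p M →
    (∀ r, 0 ≤ r → ∀ f ∈ M, T r f ∈ M) ∧
    (M : Set (LpI p)) ⊆ closure (M ∩ {f : LpI p | ∃ f₁ : LpI p, (f : ℝ → ℂ) =ᵐ[mu] hardyFun f₁})

/-- RES: the final statement, from RSYS, RINV, ABS. -/
def S_RES : Prop := ∀ (p : ENNReal) [Fact (1 ≤ p)], 1 < p → p < 2 →
  ∀ M : Submodule ℂ (LpI p), IsClosed (M : Set (LpI p)) → HardyInvariant p M →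
    IsMonomialSpace p M

end HM
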