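import Pool.Agent.H67.HM.Def2

open Polynomial MeasureTheory Filter Topology

namespace HM

/-! The case `p > 2`. Everywhere `2 < p`, `q = p/(p-1) < 2`. `RR = AddMonoidAlgebra ℂ ℤ` Laurent
polynomials, `tl : ℂ[X] →+* RR` inclusion, `TT k = T^k`, `Nn r x` the `ℓ^r` norm of the coefficients,
`st` the star operation, `em a` = variable number a, `dl t` : `T ↦ T^t`. -/

/-- NRM: norm facts (all groups `G`): Minkowski, homogeneity, monotonicity, Young, monomials. -/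
structure S_NRM : Prop where
  nonneg : ∀ {G : Type} [AddCommGroup G] (r : ℝ) (x : AddMonoidAlgebra ℂ G), 0 ≤ Nn r x
  zero : ∀ {G : Type} [AddCommGroup G] (r : ℝ), 1 ≤ r → Nn r (0 : AddMonoidAlgebra ℂ G) = 0
  one : ∀ {G : Type} [AddCommGroup G] (r : ℝ), 1 ≤ r → Nn r (1 : AddMonoidAlgebra ℂ G) = 1
  add : ∀ {G : Type} [AddCommGroup G] (r : ℝ) (x y : AddMonoidAlgebra ℂ G), 1 ≤ r →
    Nn r (x + y) ≤ Nn r x + Nn r y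
  neg : ∀ {G : Type} [AddCommGroup G] (r : ℝ) (x : AddMonoidAlgebra ℂ G), Nn r (-x) = Nn r x
  sub : ∀ {G : Type} [AddCommGroup G] (r : ℝ) (x y : AddMonoidAlgebra ℂ G), 1 ≤ r →
    Nn r (x - y) ≤ Nn r x + Nn r y
  sum : ∀ {G : Type} [AddCommGroup G] (r : ℝ) {ι : Type} (s : Finset ι)
    (x : ι → AddMonoidAlgebra ℂ G), 1 ≤ r → Nn r (∑ i ∈ s, x i) ≤ ∑ i ∈ s, Nn r (x i)
  smul : ∀ {G : Type} [AddCommGroup G] (r : ℝ) (c : ℂ) (x : AddMonoidAlgebra ℂ G), 1 ≤ r →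
    Nn r (c • x) = ‖c‖ * Nn r x
  mono : ∀ {G : Type} [AddCommGroup G] (r s : ℝ) (x : AddMonoidAlgebra ℂ G), 1 ≤ r → r ≤ s →
    Nn s x ≤ Nn r x
  mul : ∀ {G : Type} [AddCommGroup G] (r : ℝ) (x y : AddMonoidAlgebra ℂ G), 1 ≤ r →
    Nn r (x * y) ≤ Nn 1 x * Nn r y
  single_mul : ∀ {G : Type} [AddCommGroup G] (r : ℝ) (g : G) (x : AddMonoidAlgebra ℂ G), 1 ≤ r →
    Nn r (AddMonoidAlgebra.single g 1 * x) = Nn r x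
  coeff_le : ∀ {G : Type} [AddCommGroup G] (r : ℝ) (x : AddMonoidAlgebra ℂ G) (g : G), 1 ≤ r →
    ‖x.coeff g‖ ≤ Nn r x
  rpow : ∀ {G : Type} [AddCommGroup G] (r : ℝ) (x : AddMonoidAlgebra ℂ G), 1 ≤ r →
    Nn r x ^ r = ∑ k ∈ x.coeff.support, ‖x.coeff k‖ ^ r
  /-- disjoint supports -/
  disj : ∀ {G : Type} [AddCommGroup G] (r : ℝ) {ι : Type} (s : Finset ι)
    (x : ι → AddMonoidAlgebra ℂ G), 1 ≤ r → (∀ i ∈ s, ∀ j ∈ s, i ≠ j →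
      Disjoint (x i).coeff.support (x j).coeff.support) →
    Nn r (∑ i ∈ s, x i) ^ r = ∑ i ∈ s, Nn r (x i) ^ r

/-- STA: the star operation is multiplicative, isometric; `‖x‖₂² ≤ ‖x x*‖₁` (coefficient at 0 of
`x x*`), `|χ(x)|² = χ(x x*) ≤ ‖x x*‖₁` for characters `χ` of modulus one, and evaluation at a point
`z` of the circle is such a character of `RR` (`LaurentPolynomial.eval₂` or `AddMonoidAlgebra.lift`). -/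
structure S_STA : Prop where
  coeff : ∀ {G : Type} [AddCommGroup G] (x : AddMonoidAlgebra ℂ G) (g : G),
    (st x).coeff g = (starRingEnd ℂ) (x.coeff (-g))
  mul : ∀ {G : Type} [AddCommGroup G] (x y : AddMonoidAlgebra ℂ G), st (x * y) = st x * st y
  add : ∀ {G : Type} [AddCommGroup G] (x y : AddMonoidAlgebra ℂ G), st (x + y) = st x + st y
  one : ∀ {G : Type} [AddCommGroup G], st (1 : AddMonoidAlgebra ℂ G) = 1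
  pow : ∀ {G : Type} [AddCommGroup G] (x : AddMonoidAlgebra ℂ G) (n : ℕ), st (x ^ n) = st x ^ n
  smul : ∀ {G : Type} [AddCommGroup G] (c : ℂ) (x : AddMonoidAlgebra ℂ G),
    st (c • x) = (starRingEnd ℂ) c • st x
  st_st : ∀ {G : Type} [AddCommGroup G] (x : AddMonoidAlgebra ℂ G), st (st x) = x
  nrm : ∀ {G : Type} [AddCommGroup G] (r : ℝ) (x : AddMonoidAlgebra ℂ G), Nn r (st x) = Nn r x
  sb : ∀ {G H : Type} [AddCommGroup G] [AddCommGroup H] (h : G →+ H) (x : AddMonoidAlgebra ℂ G),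
    st (sb h x) = sb h (st x)
  two : ∀ {G : Type} [AddCommGroup G] (x : AddMonoidAlgebra ℂ G), Nn 2 x ^ 2 ≤ Nn 1 (x * st x)
  sup : ∀ {G : Type} [AddCommGroup G] (x : AddMonoidAlgebra ℂ G) (s : ℝ), 0 ≤ s →
    Nn 1 (x * st x) ≤ s ^ 2 → Su x s
  evl : ∀ (b : ℂ[X]) (s : ℝ), Su (tl b) s → ∀ z : ℂ, ‖z‖ = 1 → ‖b.eval z‖ ≤ s

/-- MUL: multiplication by a polynomial bounded by `s` on the circle, in `ℓ²` (from TOEP,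
`Pool/Agent/H87/HM/TOEP.lean`, after multiplying `x` by a power of `T`). -/
def S_MUL : Prop := ∀ (b : ℂ[X]) (s : ℝ), 0 ≤ s → (∀ z : ℂ, ‖z‖ = 1 → ‖b.eval z‖ ≤ s) →
  ∀ x : RR, Nn 2 (tl b * x) ≤ s * Nn 2 x

/-- DIL: separated products. The exponents `k + t j`, `|k| ≤ W`, `j ∈ ℤ`, are pairwise different. -/
def S_DIL : Prop := ∀ (r : ℝ) (x y : RR) (W : ℕ) (t : ℤ), 1 ≤ r → 2 * (W : ℤ) < t →
  (∀ k ∈ x.coeff.support, |k| ≤ W) →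
  Nn r (x * dl t y) = Nn r x * Nn r y ∧ Nn r (dl t y) = Nn r y ∧
  ∀ k ∈ (x * dl t y).coeff.support, ∃ i ∈ x.coeff.support, ∃ j ∈ y.coeff.support, k = i + t * j

/-- NSB: the same for substitutions `h : G → ℤ` which separate a finite set. -/
def S_NSB : Prop := ∀ {G : Type} [AddCommGroup G] (h : G →+ ℤ) (y : AddMonoidAlgebra ℂ G) (W : ℕ),
  (∀ α ∈ y.coeff.support, ∀ β ∈ y.coeff.support, α ≠ β → 2 * (W : ℤ) < |h α - h β|) →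
  (∀ k ∈ (sb h y).coeff.support, ∃ α ∈ y.coeff.support, k = h α) ∧
  ∀ (r : ℝ), 1 ≤ r → Nn r (sb h y) = Nn r y ∧
    ∀ x : RR, (∀ k ∈ x.coeff.support, |k| ≤ W) → Nn r (x * sb h y) = Nn r x * Nn r y

/-- SUBS: separating substitutions of several variables: `h α = ∑ α_(a,l) M^(e(a,l)+1)`, `e` an
injection to `ℕ`, `M` large: for `α ≠ β` in the finite set `F` the polynomial
`∑ (α-β)_(a,l) X^(e(a,l)+1)` is nonconstant, so its absolute value at `M` tends to infinity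
(`Polynomial.tendsto_abs_atTop` or similar). -/
def S_SUBS : Prop := ∀ (k N : ℕ) (F : Finset (Fin k → Fin N → ℤ)) (W : ℕ),
  ∃ h : (Fin k → Fin N → ℤ) →+ ℤ, (∀ α ∈ F, ∀ β ∈ F, α ≠ β → 2 * (W : ℤ) < |h α - h β|) ∧
    ∀ α, 0 ≤ α → α ≠ 0 → (W : ℤ) ≤ h α

/-- TEN: tensor products `tens x = ∏_a em a (x_a)`: the coefficient at `α` is `∏_a (x_a)_(α_a)`. -/
structure S_TEN : Prop where
  coeff : ∀ {G : Type} [AddCommGroup G] (k : ℕ) (x : Fin k → AddMonoidAlgebra ℂ G) (α : Fin k → G),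
    (∏ a, em a (x a)).coeff α = ∏ a, (x a).coeff (α a)
  nrm : ∀ {G : Type} [AddCommGroup G] (k : ℕ) (x : Fin k → AddMonoidAlgebra ℂ G) (r : ℝ), 1 ≤ r →
    Nn r (∏ a, em a (x a)) = ∏ a, Nn r (x a)
  sub : ∀ {G : Type} [AddCommGroup G] (k : ℕ) (x y : Fin k → AddMonoidAlgebra ℂ G) (r B ρ : ℝ),
    1 ≤ r → 1 ≤ B → 0 ≤ ρ → (∀ a, Nn r (x a) ≤ B) → (∀ a, Nn r (y a) ≤ B) →
    (∀ a, Nn r (x a - y a) ≤ ρ) → Nn r (∏ a, em a (x a) - ∏ a, em a (y a)) ≤ k * B ^ k * ρ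

/-- CHP: chirps. `v = c_n = n^(-1/2) ∑_(j=1)^n e^(iπj²/n) X^j`, `n` large, `μ = n^(1/2-1/p)`.
`‖v‖_q = n^(1/q-1/2) = μ`, `‖v‖_p = 1/μ`. The coefficient of `v v*` at `±l` (`1 ≤ l < n`) has absolute
value `(1/n) |∑_(j=1)^(n-l) e^(2πijl/n)| = |sin(πl²/n)| / (n sin(πl/n)) ≤ min(πl'/(2n), 1/(2l'))`,
`l' = min(l, n-l)` (Jordan), so it is `≤ n^(-1/2)`, `‖v v*‖₁ ≤ S² := C (1 + log n)`,
`‖v v* - 1‖₂² ≤ n^(-1/2) · C (1 + log n) → 0`, `S^J/μ → 0`. -/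
def S_CHP : Prop := ∀ p : ℝ, 2 < p → ∀ (κ : ℝ) (J : ℕ), 0 < κ →
  ∃ (v : ℂ[X]) (μ S : ℝ), 1 ≤ μ ∧ 1 ≤ S ∧ v.coeff 0 = 0 ∧
    Nn (p / (p - 1)) (tl v) ≤ μ ∧ Nn p (tl v) ≤ 1 / μ ∧ Nn 2 (tl v * st (tl v) - 1) ≤ κ ∧
    Nn 1 (tl v * st (tl v)) ≤ S ^ 2 ∧ S ^ J ≤ κ * μ

/-- WPW: from CHP, STA, NRM. `w = μ⁻¹ v`, `w' = μ v*`, `M = μ S`, `s = S/μ`:
`‖v^a (v*)^e‖_p ≤ ‖·‖₂ ≤ ‖(v v*)^(a+e)‖₁^(1/2) ≤ S^(a+e)`. -/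
def S_WPW : Prop := ∀ p : ℝ, 2 < p → ∀ (κ : ℝ) (J : ℕ), 0 < κ →
  ∃ (w : ℂ[X]) (w' : RR) (M s : ℝ), Pr p κ J w w' M s

/-- SYM: disjointness of supports. `‖∑_l w_l‖_q^q = N ‖w‖_q^q` and
`‖∑_(|S|=i) ∏_(l∈S) w'_l‖_p^p = C(N,i) ‖w'‖_p^(pi)` (tensor products with factors `1` outside `S`, the
exponents in the support of the term `S` are nonzero exactly at the places of `S`). -/
def S_SYM : Prop := ∀ (r : ℝ) (N : ℕ) (w : RR), 1 ≤ r → w.coeff 0 = 0 → Nn r w ≤ 1 →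
  Nn r (∑ l : Fin N, em l w) ≤ (N : ℝ) ^ (1 / r) ∧
  ∀ i : ℕ, Nn r (∑ S ∈ (Finset.univ : Finset (Fin N)).powersetCard i, ∏ l ∈ S, em l w) ≤
    ((N.choose i : ℕ) : ℝ) ^ (1 / r)

/-- ACT: `(∑_l w_l)^j` acts on multi-affine polynomials in `w'_l` like `dlt^j`, up to small errors.
Expand into words `(l_1..l_j)` and sets `S`; the product `∏_s w_(l_s) ∏_(l∈S) w'_l` is a tensor product
of factors `w^a w'^e`, `e ∈ {0,1}`, each of `‖·‖_p ≤ 1 + κ`; if all `a_l ≤ e_l` replace every `w w'` by `1`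
(TEN.sub), otherwise the product and the target are small resp. zero. (Or: induction over the word
with the statement about tensor products.) -/
def S_ACT : Prop := ∀ p : ℝ, 2 < p → ∀ (N j : ℕ) (x : Finset (Fin N) → ℂ) (ρ : ℝ), 0 < ρ →
  ∃ κ : ℝ, 0 < κ ∧ ∀ (J : ℕ) (w : ℂ[X]) (w' : RR) (M s : ℝ), j ≤ J → Pr p κ J w w' M s →
    Nn p ((∑ l : Fin N, em l (tl w)) ^ j * phi w' x - phi w' (dlt^[j] x)) ≤ ρ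

/-- DEL: `dlt^j e_i = (i-th elementary) (N-i+j)!/(N-i)! e_(i-j)`, `e_i` = indicator of `|S| = i`. -/
def S_DEL : Prop := ∀ (N i j : ℕ), j ≤ i → i ≤ N →
  (dlt^[j] fun S : Finset (Fin N) => if S.card = i then (1 : ℂ) else 0) =
    fun S => if S.card = i - j then (((N - i + j).factorial : ℂ) / ((N - i).factorial : ℂ)) else 0

/-- MD1: `b = N^(-1/q) ∑_l w_l`, `E_i = N^(i/q) (N-i)!/N! · e_i(w')`, `s' = N^(1/p) s`, from WPW, SYM,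
ACT, DEL, NRM (`κ` small, `J = N`); `phi w' (indicator of |S| = i) = e_i(w')`; `N^(-j/q)` times the factor of DEL
turns the factor of `E_i` into the one of `E_(i-j)`; `‖E_i‖_2 ≤ const · M^i` (triangle inequality and
TEN), `M^i s^(i+1) ≤ κ`; `b` satisfies `Su b s'` since `χ ∘ em l` is a character. -/
def S_MD1 : Prop := ∀ p : ℝ, 2 < p → ∀ (N : ℕ) (ρ : ℝ), 1 ≤ N → 0 < ρ →
  ∃ (b : AddMonoidAlgebra ℂ (Fin N → ℤ)) (E : ℕ → AddMonoidAlgebra ℂ (Fin N → ℤ)) (s : ℝ),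
    0 ≤ s ∧ E 0 = 1 ∧ (∀ α ∈ b.coeff.support, 0 ≤ α ∧ α ≠ 0) ∧ Nn (p / (p - 1)) b ≤ 1 ∧
    (∀ i ≤ N, Nn p (E i) ≤ ((N : ℝ) ^ i / (N.descFactorial i : ℝ)) ^ (1 - 1 / p) *
      (i.factorial : ℝ) ^ (-(1 / p))) ∧
    (∀ i ≤ N, ∀ j ≤ i, Nn p (b ^ j * E i - E (i - j)) ≤ ρ) ∧ Su b s ∧ s ≤ ρ ∧
    (∀ i ≤ N, Nn 2 (E i) * s ^ (i + 1) ≤ ρ)

/-- NUM: the constants. `i = 1`: equal to one; `i ≥ 2`: `N → ∞` gives `2^(-1/p)` at most, then `k`. -/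
def S_NUM : Prop := ∀ p : ℝ, 2 < p → ∀ (j₀ : ℕ) (η : ℝ), 0 < η → ∃ k N : ℕ, 1 ≤ k ∧ 1 ≤ N ∧ j₀ ≤ N ∧
  ((((N : ℝ) ^ 1 / (N.descFactorial 1 : ℝ)) ^ (1 - 1 / p) * (Nat.factorial 1 : ℝ) ^ (-(1 / p))) = 1) ∧
  ∀ i, 2 ≤ i → i ≤ j₀ → (((N : ℝ) ^ i / (N.descFactorial i : ℝ)) ^ (1 - 1 / p) *
      (i.factorial : ℝ) ^ (-(1 / p))) ^ k ≤ η

/-- MOD: `k`-fold tensor powers `b = ∏_a em a b₁`, `D_i = ∏_a em a E_i` of MD1 (`k`, `N` from NUM), with TEN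
(norms multiply; TEN.sub for the differences, norms bounded by some `B` depending on `N` only),
`s' = s^k`. Here `Nn p (b ^ j * D i - D (i - j)) ≤ ρ` etc. for arbitrarily small `ρ`. -/
def S_MOD : Prop := ∀ p : ℝ, 2 < p → ∀ (j₀ : ℕ) (η ρ : ℝ), 1 ≤ j₀ → 0 < η → 0 < ρ →
  ∃ (k N : ℕ) (b : AddMonoidAlgebra ℂ (Fin k → Fin N → ℤ))
    (D : ℕ → AddMonoidAlgebra ℂ (Fin k → Fin N → ℤ)) (s : ℝ),
    0 ≤ s ∧ D 0 = 1 ∧ (∀ α ∈ b.coeff.support, 0 ≤ α ∧ α ≠ 0) ∧ Nn (p / (p - 1)) b ≤ 1 ∧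
    Nn p (D 1) ≤ 1 ∧ (∀ i, 2 ≤ i → i ≤ j₀ → Nn p (D i) ≤ η) ∧
    (∀ i ≤ j₀, ∀ j ≤ i, Nn p (b ^ j * D i - D (i - j)) ≤ ρ) ∧ Su b s ∧ s ≤ ρ ∧
    (∀ i ≤ j₀, Nn 2 (D i) * s ^ (i + 1) ≤ ρ)

/-- STR: from MOD, SUBS, NSB, MUL, NRM, STA: substitute. (`ρ` in MOD small: `ρ' ≤ 1/(2U)`, ...) For `j > i`:
`‖b^j D_i‖_p ≤ ‖·‖_2 ≤ s^j ‖D_i‖_2`, and `∑_(j>i) (U s)^j ‖D_i‖_2 ≤ 2 U^(i+1) s^(i+1) ‖D_i‖_2`. SUBS for the union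
of the supports of `b`, `D_i`, `b^j D_i - D_(i-j)` (`j ≤ i ≤ j₀`) and `0`. `tl b = sb h b₁` defines the
polynomial `b` (exponents `≥ max W T₀ ≥ 0`). -/
def S_STR : Prop := ∀ p : ℝ, 2 < p → ∀ (j₀ : ℕ) (η U ρ : ℝ) (W T₀ : ℕ), 1 ≤ j₀ → 0 < η → 1 ≤ U →
  0 < ρ → ∃ (b : ℂ[X]) (D : ℕ → RR), Stc p j₀ η U ρ W T₀ b D

/-- INV: approximate inverses (geometric series for every root; induction over the roots, the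
leading coefficient is a scalar). -/
def S_INV : Prop := ∀ A : ℂ[X], (∀ z : ℂ, ‖z‖ = 1 → A.eval z ≠ 0) →
  ∃ C : ℝ, 0 < C ∧ ∀ κ : ℝ, 0 < κ → ∃ a : RR, Nn 1 (tl A * a - 1) ≤ κ ∧ Nn 1 a ≤ C

/-- PZ: polynomials without zeros on the circle are dense: coefficients `A_k r^k`, `r` close to 1 (if
`A = 0` take a small constant). -/
def S_PZ : Prop := ∀ (A : ℂ[X]) (ε : ℝ), 0 < ε → ∃ B : ℂ[X], B.natDegree ≤ A.natDegree ∧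
  (∀ z : ℂ, ‖z‖ = 1 → B.eval z ≠ 0) ∧ (∀ k, ‖B.coeff k - A.coeff k‖ ≤ ε) ∧
  Nn 1 (tl B - tl A) ≤ ε

/-- TEL: telescoping (induction on `t₀`, `ring`-like). -/
def S_TEL : Prop := ∀ (A γ b a Ti Td r : RR) (t₀ : ℕ), Ti * Td = 1 →
  (A * (1 + (4 : ℂ) • Td) + γ * b) * (-∑ t ∈ Finset.range t₀,
      ((-1 / 4 : ℂ) ^ t / 4) • (Ti ^ (t + 1) * a * (1 + γ * a * b) ^ t * r)) =
    -r + ((-1 / 4 : ℂ) ^ t₀) • (Ti ^ t₀ * (1 + γ * a * b) ^ t₀ * r) -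
      (A * a - 1) * ∑ t ∈ Finset.range t₀,
        (((-1 / 4 : ℂ) ^ t / 4) • (Ti ^ (t + 1) * (1 + γ * a * b) ^ t * r) +
          ((-1 / 4 : ℂ) ^ t) • (Ti ^ t * (1 + γ * a * b) ^ t * r))

/-- BIN: `∑_t 4^(-t-1) C(t,j) ≤ 3^(-j-1)`. -/
def S_BIN : Prop := ∀ (s : ℝ) (D : ℤ) (x z : RR) (t₀ : ℕ), 1 ≤ s →
  Nn s (∑ t ∈ Finset.range t₀, ((-1 / 4 : ℂ) ^ t / 4) • (TT (-D) ^ (t + 1) * (1 + x) ^ t * z)) ≤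
    ∑ j ∈ Finset.range t₀, (1 / 3 : ℝ) ^ (j + 1) * Nn s (x ^ j * z)

/-- RID: the formula for `(A+γb)Y₁ - γf`, `Y₁ = ∑_(i=1)^j₀ (-Ac)^(i-1) f D_i` (index shifted by one), by
induction on `j₀`: `δ_i = b D_i - D_(i-1)`, `κ_c = γ c - 1`. -/
def S_RID : Prop := ∀ (A γ b c f : RR) (D : ℕ → RR) (n : ℕ), D 0 = 1 →
  (A + γ * b) * (∑ i ∈ Finset.range (n + 1), (-(A * c)) ^ i * f * D (i + 1)) - γ * f =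
    A * (-(A * c)) ^ n * f * D (n + 1) -
    (γ * c - 1) * ∑ i ∈ Finset.range n, A * (-(A * c)) ^ i * f * D (i + 1) +
    γ * ∑ i ∈ Finset.range (n + 1), (-(A * c)) ^ i * f * (b * D (i + 1) - D i)

/-- EST: the estimates, with `Y₁` as in RID (`j₀ = n+1`), `r = (A+γb) Y₁ - γ f - ψ`, `u = γ a`. First `j₀`
(so that `3^(-j₀)·4·‖f‖₁·(1+‖γ‖₁ Ca) ≤ ε/..`), then `c` (approximate inverse of `γ`, accuracy `κ_c`), then `η`, `ρ`,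
`U ≥ (‖γ‖₁ + 1)(Ca + 1)..., W ≥` the exponents of `f_i`, `γ`; `κ` small. With RID, `r` has four parts:
(r1) `A(-Ac)^n f D_(j₀)`: `(ub)^j D_(j₀) = u^j D_(j₀-j) + u^j(error)`; for `j₀-j ≥ 2` the norm of `D` is `≤ η`; for
`j = j₀-1`: `u^n a A (Ac)^n f D_1 = ((Aa)(γc))^n (Aa) f D_1`, norm `≤ 2·2·‖f‖₁`, weight `3^(-j₀)`; for `j = j₀`
similarly with `u` more; for `j > j₀` only the error (`Stc.act`); errors: `∑_j 3^(-j-1) ‖u‖₁^j ‖error_j‖ ≤ ρ`.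
(r2) `κ_c ∑ …`: small with `κ_c` (`‖b^j D_i‖_p ≤ ‖error‖ + 1`). (r3) `b^j(b D_i - D_(i-1))` = error_(i,j+1) -
error_(i-1,j). (r4) `ψ`: `j = 0`: `‖aψ‖_p/3`; `j ≥ 1`: `‖(ub)^j aψ‖_p ≤ ‖·‖_2 ≤ (‖u‖₁/U)^j ‖a‖₁ ‖ψ‖_2` (MUL), small
for `U` large. -/
def S_EST : Prop := ∀ p : ℝ, 2 < p → ∀ A : ℂ[X], (∀ z : ℂ, ‖z‖ = 1 → A.eval z ≠ 0) →
  ∃ Ca : ℝ, 0 < Ca ∧ (∀ κ : ℝ, 0 < κ → ∃ a : RR, Nn 1 (tl A * a - 1) ≤ κ ∧ Nn 1 a ≤ Ca) ∧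
  ∀ γ : ℂ[X], (∀ z : ℂ, ‖z‖ = 1 → γ.eval z ≠ 0) → ∀ (m : ℕ) (f ψ : Fin m → RR) (ε : ℝ), 0 < ε →
  ∃ (n : ℕ) (c : RR) (η U ρ κ : ℝ) (W : ℕ), 0 < η ∧ 1 ≤ U ∧ 0 < ρ ∧ 0 < κ ∧
    (∀ k ∈ (tl γ).coeff.support, |k| ≤ W) ∧
    Nn 1 (tl γ) * Ca ≤ U ∧ (∀ z : ℂ, ‖z‖ = 1 → ‖γ.eval z‖ < U * ‖A.eval z‖) ∧
    ∀ (T₀ : ℕ) (b : ℂ[X]) (D : ℕ → RR), Stc p (n + 1) η U ρ W T₀ b D → ∀ i,
      Nn p (∑ l ∈ Finset.range (n + 1), (-(tl A * c)) ^ l * f i * D (l + 1)) ≤ Nn p (f i) + ε ∧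
      ∀ a : RR, Nn 1 (tl A * a - 1) ≤ κ → Nn 1 a ≤ Ca → ∀ J : ℕ,
        ∑ j ∈ Finset.range J, (1 / 3 : ℝ) ^ (j + 1) * Nn p ((tl γ * a * tl b) ^ j * (a *
          ((tl A + tl γ * tl b) * (∑ l ∈ Finset.range (n + 1), (-(tl A * c)) ^ l * f i * D (l + 1)) -
            tl γ * f i - ψ i))) ≤ Ca * Nn p (ψ i) + ε

/-- MN: the main lemma, from EST, STR, TEL, BIN, MUL, NRM. `G = A (1 + 4 X^D) + γ b`; `Y = Y₁ + y`,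
`y = -∑_(t<t₀) (-1/4)^t/4 T^(-(t+1)D) a (1+γab)^t r`. `G Y = γ f + ψ + 4 A T^D Y₁ + τ` (TEL), `τ = ` the last two terms
of TEL, `‖(1+γab)^t r‖_2 ≤ 2^t ‖r‖_2` (MUL, `‖γ‖₁ Ca ≤ U`), so `‖τ‖_p ≤ ‖τ‖_2 ≤ (2^(-t₀) + 3 ‖Aa-1‖₁) ‖r‖_2`, small for
`t₀` large and then `a` accurate (`r` does not depend on `a`). `P = 4 A T^D Y₁` has positive exponents
for `D` large. Zeros: `|A(z)(1+4z^D)| ≥ 3|A(z)| > |γ(z) b(z)|`. -/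
def S_MN : Prop := ∀ p : ℝ, 2 < p → ∀ A : ℂ[X], (∀ z : ℂ, ‖z‖ = 1 → A.eval z ≠ 0) →
  ∃ C : ℝ, 0 < C ∧ ∀ γ : ℂ[X], (∀ z : ℂ, ‖z‖ = 1 → γ.eval z ≠ 0) →
  ∀ (m : ℕ) (f ψ : Fin m → RR) (ε : ℝ) (T₀ : ℕ), 0 < ε →
  ∃ (b : ℂ[X]) (D : ℕ), (∀ k < T₀, b.coeff k = 0) ∧ T₀ ≤ D ∧
    Nn (p / (p - 1)) (tl (γ * b)) ≤ Nn (p / (p - 1)) (tl γ) ∧
    (∀ z : ℂ, ‖z‖ = 1 → (A * (1 + 4 * X ^ D) + γ * b).eval z ≠ 0) ∧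
    ∀ ε' : ℝ, 0 < ε' → ∃ (Y P : Fin m → RR), ∀ i,
      (∀ k ≤ 0, (P i).coeff k = 0) ∧ Nn p (Y i) ≤ Nn p (f i) + C * Nn p (ψ i) + ε ∧
      Nn p (tl (A * (1 + 4 * X ^ D) + γ * b) * Y i - tl γ * f i - ψ i - P i) ≤ ε'

/-- MG2: merging two pairs. `w, w'` from WPW (`J = 1`), `w_j = w(T^(t_j))`, `w'_j = w'(T^(t_j))` (`dl`), `t₁` larger
than twice all exponents of `g₁, g₂, f_(1,i), f_(2,i)` and their products, `t₂` larger than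
twice all exponents occurring after that. `g = g₁ w₁ + g₂ w₂`, `F_i = f_(1,i) w'_1 + f_(2,i) w'_2`;
`g F = g₁ f₁ w₁w'_1 + g₂ f₂ w₂ w'_2 + g₁ f₂ w₁ w'_2 + g₂ f₁ w₂ w'_1`, cross terms: DIL twice, `‖w‖_p ≤ κ` (`pow1`, `n = 1`);
`w w' - 1` small. The supports of the two terms of `g` (and of `F`) are disjoint since `w`, `w'` have no
constant term. -/
def S_MG2 : Prop := ∀ p : ℝ, 2 < p → ∀ (m : ℕ) (g₁ g₂ : ℂ[X]) (f₁ f₂ : Fin m → RR) (ε : ℝ), 0 < ε →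
  ∃ (g : ℂ[X]) (F : Fin m → RR),
    Nn (p / (p - 1)) (tl g) ^ (p / (p - 1)) ≤ Nn (p / (p - 1)) (tl g₁) ^ (p / (p - 1)) +
      Nn (p / (p - 1)) (tl g₂) ^ (p / (p - 1)) ∧
    ∀ i, Nn p (F i) ^ p ≤ Nn p (f₁ i) ^ p + Nn p (f₂ i) ^ p ∧
      Nn p (tl g * F i - tl g₁ * f₁ i - tl g₂ * f₂ i) ≤ ε

/-- MRG: from MG2 by induction on `R`. -/
def S_MRG : Prop := ∀ p : ℝ, 2 < p → ∀ (R m : ℕ) (g : ℕ → ℂ[X]) (f : ℕ → Fin m → RR) (ε : ℝ), 0 < ε →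
  ∃ (γ : ℂ[X]) (F : Fin m → RR),
    Nn (p / (p - 1)) (tl γ) ^ (p / (p - 1)) ≤
      ∑ r ∈ Finset.range R, Nn (p / (p - 1)) (tl (g r)) ^ (p / (p - 1)) ∧
    ∀ i, Nn p (F i) ^ p ≤ ∑ r ∈ Finset.range R, Nn p (f r i) ^ p ∧
      Nn p (tl γ * F i - ∑ r ∈ Finset.range R, tl (g r) * f r i) ≤ ε

/-- CRL: correlations are coefficients at nonpositive exponents of products; norms. -/
structure S_CRL : Prop where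
  cor : ∀ (A : ℂ[X]) (Y : RR) (k : ℕ),
    HM.cor A (fun l : ℕ => Y.coeff (-(l : ℤ))) k = (tl A * Y).coeff (-(k : ℤ))
  rv : ∀ (u : ℂ[X]) (k : ℤ), (rv u).coeff k = if k ≤ 0 then u.coeff (-k).toNat else 0
  tl : ∀ (u : ℂ[X]) (k : ℤ), (tl u).coeff k = if 0 ≤ k then u.coeff k.toNat else 0
  rvn : ∀ (u : ℂ[X]) (r : ℝ), Nn r (HM.rv u) = Nn r (HM.tl u)
  bd : ∀ (Y : RR) (r : ℝ), 1 ≤ r → Bd r (fun l : ℕ => Y.coeff (-(l : ℤ))) (Nn r Y ^ r)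
  bdp : ∀ (u : ℂ[X]) (r B : ℝ), 1 ≤ r → (Bd r u.coeff B ↔ Nn r (HM.tl u) ^ r ≤ B)
  /-- restriction to nonpositive exponents does not increase norms: the Laurent polynomial with
  the coefficients `Y_k`, `k ≤ 0` -/
  neg : ∀ (Y : RR), ∃ Z : RR, (∀ k, Z.coeff k = if k ≤ 0 then Y.coeff k else 0) ∧
    ∀ (r B : ℝ), 1 ≤ r → 0 ≤ B → Bd r (fun l : ℕ => Y.coeff (-(l : ℤ))) (B ^ r) → Nn r Z ≤ B

/-- FCP: exact solutions in `ℓ^p(ℕ)`, stable in `G`. Operators on `lp (fun _ : ℕ => ℂ) p`: `S` = left shift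
`(S e)(k) = e(k+1)`, `S'` = right shift, `S S' = 1`; `cor G = G(S)`. Let `g` be an approximate inverse with
`‖G g - 1‖₁ ≤ 1/4`, `B = ∑_(j≥0) g_j S^j + ∑_(j<0) g_j S'^(-j)`; as `G` has only exponents `≥ 0`, for `e ∈ ℓ^p(ℕ)` regarded
at the exponents `-k`, `cor G (B e)` = the part of `(G g) e` at exponents `≤ 0` (the part of `g e` at positive
exponents does not contribute), so `‖cor G B - 1‖ ≤ 1/4`, and `≤ 1/2` for `G'` close to `G`; Neumann series: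
`e = -B (cor G' B)⁻¹ E`, `‖e‖ ≤ 2 ‖g‖₁ ‖E‖`. Alternatively iterate with sequences. -/
def S_FCP : Prop := ∀ p : ℝ, 1 < p → ∀ G : ℂ[X],
  (∃ g : RR, Nn 1 (tl G * g - 1) ≤ 1 / 4) →
  ∃ C δ : ℝ, 0 < C ∧ 0 < δ ∧ ∀ G' : ℂ[X], G'.natDegree ≤ G.natDegree →
    (∀ k, ‖G'.coeff k - G.coeff k‖ ≤ δ) → ∀ (E : ℕ → ℂ) (t : ℝ), 0 ≤ t → Bd p E (t ^ p) →
    ∃ e : ℕ → ℂ, Bd p e ((C * t) ^ p) ∧ ∀ k, cor G' e k = - E k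

/-- WIN2: as WIN, for `p > 2` (same proof as `HM.WIN_proved`). -/
def S_WIN2 : Prop := ∀ p : ℝ, 2 < p →
  ∀ (m L : ℕ) (γ : ℕ → ℂ) (a : Fin m → ℕ → ℂ) (ε : ℝ), 0 < L → 0 < ε →
  Bd (p / (p - 1)) γ 1 → (∀ i, ∃ N, Bd p (a i) N) →
  (∀ i, Bd p (fun k => a i (L + k)) (ε ^ p)) →
  (∀ i k, 2 * L * ‖∑' j : ℕ, γ j * a i (j + k)‖ ^ 2 ≤ ε ^ 2) →
  ∃ (P : ℂ[X]) (F : Fin m → ℂ[X]) (R : ℕ) (Q : ℕ → ℂ[X]) (u : ℕ → Fin m → ℂ[X])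
    (x y : ℕ → ℝ),
    (∀ k, P.coeff k = if k < L then γ k else 0) ∧
    (∀ i k, (F i).coeff k = if k < L then a i k else 0) ∧
    (∀ r < R, Bd (p / (p - 1)) (Q r).coeff (x r)) ∧ ∑ r ∈ Finset.range R, x r ≤ 1 ∧
    (∀ r < R, ∀ i, Bd p (u r i).coeff (y r)) ∧ ∑ r ∈ Finset.range R, y r ≤ 2 * m * ε ^ p ∧
    ∀ i, Bd 2 (fun k => cor P (F i).coeff k + ∑ r ∈ Finset.range R, cor (Q r) (u r i).coeff k)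
      ((2 * ε) ^ 2)

/-- DSC2: the discrete theorem for `p > 2`, from WIN2, PZ, MRG, MN, INV, FCP, SEP (`t_SEP`), CRL, NRM.
`P, F_i, Q_r, u_(r,i)` from WIN2; `A` from PZ close to `P`; pairs `(Q_r, rv u_(r,i))`, `r < R`, and one more pair
`(1, -E'_i)`, `E'_i` = part of `A rv F_i + ∑ Q_r rv u_(r,i)` at exponents `≤ 0`, `‖E'_i‖_p ≤ ‖E'_i‖_2 ≤ 3ε`. MRG: `γ₁, F'_i`;
PZ: `γ` close to `γ₁`; `ψ_i = ∑ g_r f_(r,i) - γ F'_i` tiny (`C ‖ψ‖ ≤ ε`, `C = C(A)` of MN). MN with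
`T₀ > L, deg F_i`: `G = A(1+4X^D)+γb`, `‖G‖_q ≤ 5‖A‖_q + ‖γ‖_q ≤ 7.5`; INV for `G`, FCP: `C', δ`; choose `ε'`, then `Y_i, P_i`,
then a separable `G'` (SEP) very close to `G`. The part at exponents `≤ 0` of `G (rv F_i + Y_i)` is that of `τ_i`,
`‖τ_i‖_p ≤ ε'`. `b_i(k) = (rv F_i + Y_i)_(-k) + e_i(k)`, `e_i` from FCP. -/
def S_DSC2 : Prop := ∀ p : ℝ, 2 < p → ∀ m : ℕ, ∃ K : ℝ, 0 < K ∧
  ∀ (L : ℕ) (γ : ℕ → ℂ) (a : Fin m → ℕ → ℂ) (ε : ℝ), 0 < L → 0 < ε →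
  Bd (p / (p - 1)) γ 1 → (∀ i, ∃ N, Bd p (a i) N) →
  (∀ i, Bd p (fun k => a i (L + k)) (ε ^ p)) →
  (∀ i k, 2 * L * ‖∑' j : ℕ, γ j * a i (j + k)‖ ^ 2 ≤ ε ^ 2) →
  ∀ η : ℝ, 0 < η →
  ∃ (G : ℂ[X]) (b : Fin m → ℕ → ℂ), G.Separable ∧ G.coeff 0 ≠ 0 ∧
    (∀ k < L, ‖G.coeff k - γ k‖ ≤ η) ∧ Bd (p / (p - 1)) G.coeff 64 ∧
    ∀ i, Bd p (fun k => b i k - a i k) ((K * ε) ^ p) ∧ ∀ k, cor G (b i) k = 0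

/-- KEY2: as KEY, for `p > 2`, constant 64 (same proof as `HM.KEY_proved`, from DSC2). -/
def S_KEY2 : Prop := ∀ (p : ENNReal) [Fact (1 ≤ p)], 2 < p → p < ⊤ →
  ∀ (X : Type) [NormedAddCommGroup X] [NormedSpace ℂ X] (S : Sys p X)
    (g : X →L[ℂ] ℂ), ‖g‖ ≤ 1 → ∀ (m : ℕ) (f : Fin m → X), (∀ i, f i ∈ S.Sm) →
  (∀ i, ∀ r, 0 ≤ r → g (S.T r (f i)) = 0) → ∀ φ ∈ S.Sm, ∀ ε : ℝ, 0 < ε →
  (∀ f : X, ∀ ε : ℝ, 0 < ε → ∃ R : ℝ, ∀ δ, 0 < δ → ∀ (k n : ℕ), R ≤ k * δ →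
    ∑ j ∈ Finset.range n, ‖S.w δ (S.T ((k + j : ℕ) * δ) f)‖ ^ p.toReal ≤ ε) →
  ∃ (Λ : Finset ℂ) (g' : X →L[ℂ] ℂ), (∀ s ∈ Λ, 0 < s.re) ∧ ‖g'‖ ≤ 64 ∧
    (∀ s ∈ Λ, g' (S.e s) = 0) ∧ ‖g' φ - g φ‖ ≤ ε ∧
    ∀ i, Metric.infDist (f i) (Submodule.span ℂ (S.e '' (Λ : Set ℂ)) : Set X) ≤ ε

/-- ABS2: as ABS, for `p > 2` (from KEY2, ASM; `c = 1/128`). -/
def S_ABS2 : Prop := ∀ (p : ENNReal) [Fact (1 ≤ p)], 2 < p → p < ⊤ →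
  ∀ (X : Type) [NormedAddCommGroup X] [NormedSpace ℂ X] [TopologicalSpace.SeparableSpace X]
    (S : Sys p X) (M : Submodule ℂ X), IsClosed (M : Set X) →
  (∀ r, 0 ≤ r → ∀ f ∈ M, S.T r f ∈ M) → (M : Set X) ⊆ closure (M ∩ S.Sm) → Dense S.Sm →
  (∀ f : X, ∀ ε : ℝ, 0 < ε → ∃ R : ℝ, ∀ δ, 0 < δ → ∀ (k n : ℕ), R ≤ k * δ →
    ∑ j ∈ Finset.range n, ‖S.w δ (S.T ((k + j : ℕ) * δ) f)‖ ^ p.toReal ≤ ε) →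
  ∃ Λ : ℕ → Finset ℂ, (∀ n, ∀ s ∈ Λ n, 0 < s.re) ∧ ∀ f : X, f ∈ M ↔
    Tendsto (fun n => Metric.infDist f (Submodule.span ℂ (S.e '' (Λ n : Set ℂ)) : Set X))
      atTop (𝓝 0)

/-- GEO2: as GEO, for all `p`. -/
def S_GEO2 : Prop := ∀ (p : ENNReal) [Fact (1 ≤ p)], 1 < p → p < ⊤ →
  ∀ (e : ℂ → LpI p), (∀ s : ℂ, 0 < s.re →
    (e s : ℝ → ℂ) =ᵐ[mu] fun x : ℝ => (x : ℂ) ^ (s - 1 / (p.toReal : ℂ))) →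
  ∀ δ : ℝ, 0 < δ → ∀ l : ℂ, l ≠ 0 → ‖l‖ < 1 → ∀ g : LpI p,
    ((g : ℝ → ℂ) =ᵐ[mu] jfun p δ (fun k => l ^ k)) → g ∈ closure
      (Submodule.span ℂ {x : LpI p | ∃ s : ℂ, 0 < s.re ∧ Complex.exp (-(δ * s)) = l ∧ x = e s} :
        Set (LpI p))

/-- RSYS2: as RSYS, for all `p`. -/
def S_RSYS2 : Prop := ∀ (p : ENNReal) [Fact (1 ≤ p)], 1 < p → p < ⊤ →
  ∃ S : Sys p (LpI p),
    (∀ s : ℂ, 0 < s.re →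
      (S.e s : ℝ → ℂ) =ᵐ[mu] fun x : ℝ => (x : ℂ) ^ (s - 1 / (p.toReal : ℂ))) ∧
    (∀ r, 0 ≤ r → ∀ f : LpI p, (S.T r f : ℝ → ℂ) =ᵐ[mu] tfun p r f) ∧
    S.Sm = {f : LpI p | ∃ f₁ : LpI p, (f : ℝ → ℂ) =ᵐ[mu] hardyFun f₁} ∧
    ∀ f : LpI p, ∀ ε : ℝ, 0 < ε → ∃ R : ℝ, ∀ δ, 0 < δ → ∀ (k n : ℕ), R ≤ k * δ →
      ∑ j ∈ Finset.range n, ‖S.w δ (S.T ((k + j : ℕ) * δ) f)‖ ^ p.toReal ≤ ε

/-- RINV2: as RINV, for all `p`. -/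
def S_RINV2 : Prop := ∀ (p : ENNReal) [Fact (1 ≤ p)], 1 < p → p < ⊤ →
  ∀ (T : ℝ → LpI p →L[ℂ] LpI p), (∀ r, 0 ≤ r → ∀ f : LpI p,
    (T r f : ℝ → ℂ) =ᵐ[mu] tfun p r f ∧ ‖T r f‖ ≤ ‖f‖) →
  ∀ M : Submodule ℂ (LpI p), IsClosed (M : Set (LpI p)) → HardyInvariant p M →
    (∀ r, 0 ≤ r → ∀ f ∈ M, T r f ∈ M) ∧
    (M : Set (LpI p)) ⊆ closure (M ∩ {f : LpI p | ∃ f₁ : LpI p, (f : ℝ → ℂ) =ᵐ[mu] hardyFun f₁})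

/-- RES2: the final statement for `p > 2`, from RSYS2, RINV2, ABS2. -/
def S_RES2 : Prop := ∀ (p : ENNReal) [Fact (1 ≤ p)], 2 < p → p < ⊤ →
  ∀ M : Submodule ℂ (LpI p), IsClosed (M : Set (LpI p)) → HardyInvariant p M →
    IsMonomialSpace p M

end HM
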